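import Mathlib
import Pool.Agent.H705R2.Weyl

set_option autoImplicit false

namespace Pool.Agent.H359Z.TM

open Filter Topology Real

lemma weyl_real {f : ℝ → ℝ} {p θ : ℝ} (hp : 0 < p) (hf : Continuous f) (hper : Function.Periodic f p)
    (hθ : Irrational (θ / p)) (s a : ℝ) :
    Tendsto (fun N : ℕ => (∑ L ∈ Finset.range N, f (s + L * θ)) / N) atTop
      (𝓝 ((∫ x in a..a + p, f x) / p)) := by
  set g : ℝ → ℂ := fun t => (f (p * t) : ℂ) with hg
  have hgper : Function.Periodic g 1 := by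
    intro t
    simp only [hg]
    rw [mul_add, mul_one, hper]
  have hgc : Continuous g := by simp only [hg]; fun_prop
  have hlc : Continuous hgper.lift := by
    rw [(QuotientAddGroup.isQuotientMap_mk _).continuous_iff]
    exact hgc
  set h : C(H705R2.Circ, ℂ) := ⟨hgper.lift, hlc⟩ with hh
  have hcoe : ∀ t : ℝ, h (t : H705R2.Circ) = g t := fun t => hgper.lift_coe t
  have hord : addOrderOf ((θ / p : ℝ) : H705R2.Circ) = 0 := by
    rw [addOrderOf_eq_zero_iff, AddCircle.not_isOfFinAddOrder_iff_forall_rat_ne_div]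
    intro q hq
    apply hθ
    exact ⟨q, by simpa using hq⟩
  have hw := H705R2.weyl hord ((s / p : ℝ) : H705R2.Circ) h
  have hint : ∫ x : H705R2.Circ, h x = (((∫ x in a..a + p, f x) / p : ℝ) : ℂ) := by
    rw [← AddCircle.intervalIntegral_preimage 1 (a / p)]
    simp_rw [hcoe]
    simp only [hg]
    rw [intervalIntegral.integral_ofReal, intervalIntegral.integral_comp_mul_left f hp.ne']
    congr 1
    have e1 : p * (a / p) = a := by field_simp
    have e2 : p * (a / p + 1) = a + p := by field_simp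
    rw [e1, e2, smul_eq_mul]; ring
  rw [hint] at hw
  have h2 := (Complex.continuous_re.tendsto _).comp hw
  rw [Complex.ofReal_re] at h2
  refine h2.congr fun N => ?_
  simp only [Function.comp, H705R2.avg]
  have : ∀ m : ℕ, h (((s / p : ℝ) : H705R2.Circ) + m • ((θ / p : ℝ) : H705R2.Circ))
      = (f (s + m * θ) : ℂ) := by
    intro m
    rw [← AddCircle.coe_nsmul, ← AddCircle.coe_add, hcoe]
    simp only [hg]
    congr 2
    rw [nsmul_eq_mul]; field_simp
  simp_rw [this]
  rw [← Complex.ofReal_sum, ← Complex.ofReal_natCast, ← Complex.ofReal_div, Complex.ofReal_re]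

lemma exists_nat_lt {f : ℝ → ℝ} {p θ : ℝ} (hp : 0 < p) (hf : Continuous f)
    (hper : Function.Periodic f p) (hθ : Irrational (θ / p)) {c t : ℝ} (h : c < f t) :
    ∃ j : ℕ, c < f (j * θ) := by
  by_contra hcon
  push Not at hcon
  set g : ℝ → ℝ := fun x => max (f x - c) 0 with hg
  have hgc : Continuous g := by simp only [hg]; fun_prop
  have hgp : Function.Periodic g p := by intro x; simp only [hg]; rw [hper]
  have hw := weyl_real hp hgc hgp hθ 0 t
  have h0 : ∀ N : ℕ, (∑ L ∈ Finset.range N, g (0 + L * θ)) / N = 0 := by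
    intro N
    rw [Finset.sum_eq_zero, zero_div]
    intro L _
    simp only [hg, zero_add]
    exact max_eq_right (by linarith [hcon L])
  simp_rw [h0] at hw
  have h1 := tendsto_nhds_unique hw tendsto_const_nhds
  have h2 : 0 < ∫ x in t..t + p, g x := by
    apply intervalIntegral.integral_pos (by linarith) hgc.continuousOn
    · intro x _; exact le_max_right _ _
    · exact ⟨t, ⟨le_rfl, by linarith⟩, lt_max_of_lt_left (by linarith)⟩
  have h3 : 0 < (∫ x in t..t + p, g x) / p := by positivity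
  linarith

/-- bump dominating the indicator of the gap region -/
noncomputable def Db (u φ : ℝ) : ℝ := 8 * u ^ 2 / (sin φ ^ 2 + 4 * u ^ 2)

/-- truncated cotangent -/
noncomputable def xb (u φ : ℝ) : ℝ := u * cos φ * sin φ / max (sin φ ^ 2) (4 * u ^ 2)

lemma continuous_Db {u : ℝ} (hu : 0 < u) : Continuous (Db u) := by
  unfold Db
  refine Continuous.div (by fun_prop) (by fun_prop) fun x => ?_
  positivity

lemma continuous_xb {u : ℝ} (hu : 0 < u) : Continuous (xb u) := by
  unfold xb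
  refine Continuous.div (by fun_prop) (by fun_prop) fun x => ?_
  have : 0 < 4 * u ^ 2 := by positivity
  exact (lt_max_of_lt_right this).ne'

lemma periodic_Db (u : ℝ) : Function.Periodic (Db u) π := by
  intro x; simp [Db]

lemma periodic_xb (u : ℝ) : Function.Periodic (xb u) π := by
  intro x; simp [xb]

lemma Db_nonneg (u φ : ℝ) : 0 ≤ Db u φ := by unfold Db; positivity

lemma one_le_Db {u φ : ℝ} (hu : 0 < u) (h : sin φ ^ 2 ≤ 4 * u ^ 2) : 1 ≤ Db u φ := by
  unfold Db
  rw [le_div_iff₀ (by positivity)]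
  linarith

lemma xb_eq {u φ : ℝ} (hu : 0 < u) (h : 4 * u ^ 2 ≤ sin φ ^ 2) : xb u φ = u * cos φ / sin φ := by
  unfold xb
  rw [max_eq_left h]
  have : sin φ ≠ 0 := by
    intro h0; rw [h0] at h; nlinarith [sq_pos_of_pos hu]
  field_simp

lemma xb_sq_le {u : ℝ} (hu : 0 < u) (φ : ℝ) : xb u φ ^ 2 ≤ Db u φ / 4 := by
  unfold xb Db
  set m := max (sin φ ^ 2) (4 * u ^ 2) with hm
  have h1 : sin φ ^ 2 ≤ m := le_max_left _ _
  have h2 : 4 * u ^ 2 ≤ m := le_max_right _ _
  have hu2 : 0 < u ^ 2 := by positivity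
  have hm0 : 0 < m := by linarith
  have hc : cos φ ^ 2 ≤ 1 := cos_sq_le_one φ
  have hs : 0 ≤ sin φ ^ 2 := sq_nonneg _
  rw [div_pow, div_div, div_le_div_iff₀ (by positivity) (by positivity)]
  have h3 : (u * cos φ * sin φ) ^ 2 ≤ u ^ 2 * m := by
    calc (u * cos φ * sin φ) ^ 2 = u ^ 2 * (cos φ ^ 2 * sin φ ^ 2) := by ring
      _ ≤ u ^ 2 * (1 * m) := by gcongr
      _ = u ^ 2 * m := by ring
  calc (u * cos φ * sin φ) ^ 2 * ((sin φ ^ 2 + 4 * u ^ 2) * 4)
      ≤ (u ^ 2 * m) * ((m + m) * 4) := by gcongr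
    _ = 8 * u ^ 2 * m ^ 2 := by ring

lemma abs_xb_le {u : ℝ} (hu : 0 < u) (φ : ℝ) : |xb u φ| ≤ 1 / 2 := by
  unfold xb
  set m := max (sin φ ^ 2) (4 * u ^ 2) with hm
  have h1 : sin φ ^ 2 ≤ m := le_max_left _ _
  have h2 : 4 * u ^ 2 ≤ m := le_max_right _ _
  have hu2 : 0 < u ^ 2 := by positivity
  have hm0 : 0 < m := by linarith
  rw [abs_div, abs_of_pos hm0, div_le_iff₀ hm0, abs_mul, abs_mul, abs_of_pos hu]
  have hc : |cos φ| ≤ 1 := abs_cos_le_one φ
  have h3 : u * |cos φ| * |sin φ| ≤ u * 1 * |sin φ| := by gcongr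
  have h4 : |sin φ| ^ 2 = sin φ ^ 2 := sq_abs _
  nlinarith [sq_nonneg (|sin φ| - 2 * u)]

lemma integral_xb (u : ℝ) : ∫ x in (-(π / 2))..(-(π / 2) + π), xb u x = 0 := by
  have e : -(π / 2) + π = π / 2 := by ring
  rw [e]
  have h1 : ∫ x in (-(π / 2))..(π / 2), xb u (-x) = ∫ x in (-(π / 2))..(π / 2), xb u x := by
    rw [intervalIntegral.integral_comp_neg]; simp
  have h2 : ∀ x, xb u (-x) = -xb u x := by
    intro x; unfold xb; simp; ring
  simp_rw [h2] at h1
  rw [intervalIntegral.integral_neg] at h1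
  linarith

lemma integral_Db {u : ℝ} (hu : 0 < u) :
    (∫ x in (-(π / 2))..(-(π / 2) + π), Db u x) / π ≤ 7 * u := by
  have e : -(π / 2) + π = π / 2 := by ring
  rw [e]
  have hπ := pi_pos
  have hc : π * u ≠ 0 := by positivity
  have h1 : ∫ x in (-(π / 2))..(π / 2), Db u x
      ≤ ∫ x in (-(π / 2))..(π / 2), 2 * π ^ 2 * u ^ 2 * ((π * u) ^ 2 + x ^ 2)⁻¹ := by
    apply intervalIntegral.integral_mono_on (by linarith)
      ((continuous_Db hu).intervalIntegrable _ _)
    · apply Continuous.intervalIntegrable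
      refine Continuous.mul continuous_const (Continuous.inv₀ (by fun_prop) fun x => ?_)
      positivity
    · intro x hx
      have hx' : |x| ≤ π / 2 := abs_le.2 ⟨hx.1, hx.2⟩
      have h2 := mul_abs_le_abs_sin hx'
      have h3 : (2 / π * |x|) ^ 2 ≤ |sin x| ^ 2 := pow_le_pow_left₀ (by positivity) h2 2
      rw [mul_pow, sq_abs, sq_abs, div_pow] at h3
      unfold Db
      rw [← div_eq_mul_inv, div_le_div_iff₀ (by positivity) (by positivity)]
      have h4 : 4 * x ^ 2 ≤ π ^ 2 * sin x ^ 2 := by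
        rw [div_mul_eq_mul_div, div_le_iff₀ (by positivity)] at h3
        linarith
      have hu2 : 0 < u ^ 2 := by positivity
      nlinarith [mul_le_mul_of_nonneg_left h4 hu2.le]
  rw [intervalIntegral.integral_const_mul, integral_inv_sq_add_sq hc] at h1
  have h5 : arctan (π / 2 / (π * u)) - arctan (-(π / 2) / (π * u)) ≤ π := by
    linarith [arctan_lt_pi_div_two (π / 2 / (π * u)), neg_pi_div_two_lt_arctan (-(π / 2) / (π * u))]
  have h6 : 2 * π ^ 2 * u ^ 2 * ((π * u)⁻¹ * (arctan (π / 2 / (π * u)) - arctan (-(π / 2) / (π * u))))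
      ≤ 2 * π ^ 2 * u ^ 2 * ((π * u)⁻¹ * π) := by gcongr
  have h7 : 2 * π ^ 2 * u ^ 2 * ((π * u)⁻¹ * π) = 2 * π * u * π := by field_simp
  rw [div_le_iff₀ hπ]
  have h8 : 2 * π ≤ 7 := by linarith [pi_lt_d2]
  calc _ ≤ 2 * π * u * π := by linarith
    _ ≤ 7 * u * π := by gcongr

lemma integral_abs_xb (A : ℝ) : ∃ u0 : ℝ, 0 < u0 ∧ ∀ u : ℝ, 0 < u → u ≤ u0 →
    A * u ≤ (∫ x in (-(π / 2))..(-(π / 2) + π), |xb u x|) / π := by
  have hπ := pi_pos
  refine ⟨exp (-(2 * π * |A|)) / π, by positivity, fun u hu hu0 => ?_⟩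
  have e : -(π / 2) + π = π / 2 := by ring
  rw [e]
  have hπu : π * u ≤ exp (-(2 * π * |A|)) := by rw [le_div_iff₀ hπ] at hu0; linarith
  have hexp : exp (-(2 * π * |A|)) ≤ 1 := by
    rw [exp_le_one_iff]; have : 0 ≤ 2 * π * |A| := by positivity
    linarith
  have hπu0 : 0 < π * u := by positivity
  have h1π : 1 ≤ π / 2 := by linarith [pi_gt_three]
  have hca : Continuous fun x => |xb u x| := (continuous_xb hu).abs
  have h1 : ∫ x in (π * u)..1, |xb u x| ≤ ∫ x in (-(π / 2))..(π / 2), |xb u x| := by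
    apply intervalIntegral.integral_mono_interval (by linarith) (by linarith) h1π
    · exact Filter.Eventually.of_forall fun x => abs_nonneg _
    · exact hca.intervalIntegrable _ _
  have h2 : ∫ x in (π * u)..1, u / 2 * x⁻¹ ≤ ∫ x in (π * u)..1, |xb u x| := by
    apply intervalIntegral.integral_mono_on (by linarith) _ (hca.intervalIntegrable _ _)
    · intro x hx
      have hx0 : 0 < x := by linarith [hx.1]
      have hs1 : 2 / π * x ≤ sin x := mul_le_sin hx0.le (by linarith [hx.2])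
      have hs2 : 2 * u ≤ sin x := by
        have : 2 / π * (π * u) ≤ 2 / π * x := by gcongr; exact hx.1
        have h3 : 2 / π * (π * u) = 2 * u := by field_simp
        linarith
      have hs0 : 0 < sin x := by linarith
      have hs3 : sin x ≤ x := sin_le hx0.le
      have hc : 1 / 2 ≤ cos x := by
        have := one_sub_sq_div_two_le_cos (x := x)
        have : x ^ 2 ≤ 1 := by nlinarith [hx.2]
        linarith
      rw [xb_eq hu (by nlinarith), abs_of_nonneg (by positivity)]
      rw [← div_eq_mul_inv, div_le_div_iff₀ hx0 hs0]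
      calc u / 2 * sin x ≤ u / 2 * x := by gcongr
        _ = u * (1 / 2) * x := by ring
        _ ≤ u * cos x * x := by gcongr
    · apply ContinuousOn.intervalIntegrable
      refine ContinuousOn.mul continuousOn_const (continuousOn_inv₀.mono ?_)
      intro x hx
      rw [Set.uIcc_of_le (by linarith)] at hx
      exact ne_of_gt (by linarith [hx.1] : (0 : ℝ) < x)
  rw [intervalIntegral.integral_const_mul, integral_inv_of_pos hπu0 one_pos] at h2
  have h3 : 2 * π * |A| ≤ log (1 / (π * u)) := by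
    rw [le_log_iff_exp_le (by positivity), le_div_iff₀ hπu0]
    calc exp (2 * π * |A|) * (π * u) ≤ exp (2 * π * |A|) * exp (-(2 * π * |A|)) := by gcongr
      _ = 1 := by rw [← exp_add]; simp
  rw [le_div_iff₀ hπ]
  calc A * u * π ≤ |A| * u * π := by gcongr; exact le_abs_self A
    _ = u / 2 * (2 * π * |A|) := by ring
    _ ≤ u / 2 * log (1 / (π * u)) := by gcongr
    _ ≤ _ := by linarith

end Pool.Agent.H359Z.TM
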