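import Pool.Agent.H359Z.TM.Key

set_option autoImplicit false

namespace Pool.Agent.H359Z.TM

open MeasureTheory Filter Topology Real Polynomial

lemma barrier_seq {l : ℝ} (hl : 3 ≤ |l|) {u v : ℕ → ℝ} (hu : ∀ n, u (n + 1) = l * u n - v n)
    (hv : ∀ n, v (n + 1) = u n) (hQ : u 0 ^ 2 - l * u 0 * v 0 + v 0 ^ 2 ≠ 0) (c : ℝ) :
    ∃ N, ∀ n, N ≤ n → c ≤ |u n| := by
  have hinv : ∀ n, u n ^ 2 - l * u n * v n + v n ^ 2 = u 0 ^ 2 - l * u 0 * v 0 + v 0 ^ 2 := by
    intro n
    induction n with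
    | zero => rfl
    | succ n ih => rw [hu, hv, ← ih]; ring
  have hstep : ∀ n, 3 * |u n| ≤ |u (n + 1)| + |v n| := by
    intro n
    have h1 : l * u n = u (n + 1) + v n := by rw [hu]; ring
    calc 3 * |u n| ≤ |l| * |u n| := by gcongr
      _ = |u (n + 1) + v n| := by rw [← abs_mul, h1]
      _ ≤ _ := abs_add_le _ _
  have hex : ∃ m, |v m| ≤ |u m| ∧ u m ≠ 0 := by
    by_contra hcon
    push Not at hcon
    have h1 : ∀ m, |u m| ≤ |v m| := by
      intro m
      rcases le_total |v m| |u m| with h | h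
      · rw [hcon m h, abs_zero]; exact abs_nonneg _
      · exact h
    have h2 : ∀ m, |v m| ≤ |v 0| * (1 / 2) ^ m := by
      intro m
      induction m with
      | zero => simp
      | succ m ih =>
        have h3 := h1 (m + 1)
        have h4 := hstep m
        rw [hv] at h3 ⊢
        rw [pow_succ]
        linarith
    have h3 : ∀ m, |u 0 ^ 2 - l * u 0 * v 0 + v 0 ^ 2| ≤ (2 + |l|) * |v 0| ^ 2 * (1 / 2) ^ m := by
      intro m
      rw [← hinv m]
      have a1 := h1 m
      have a2 := h2 m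
      have a3 : (1 / 2 : ℝ) ^ m ≤ 1 := pow_le_one₀ (by norm_num) (by norm_num)
      have a4 : |v m| ≤ |v 0| := a2.trans (mul_le_of_le_one_right (abs_nonneg _) a3)
      have a5 : |v m| * |v m| ≤ |v 0| * (|v 0| * (1 / 2) ^ m) := by gcongr
      have a6 : |u m| * |u m| ≤ |v m| * |v m| := by gcongr
      have a7 : |l| * (|u m| * |v m|) ≤ |l| * (|v m| * |v m|) := by gcongr
      calc |u m ^ 2 - l * u m * v m + v m ^ 2| ≤ |u m ^ 2 - l * u m * v m| + |v m ^ 2| := abs_add_le _ _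
        _ ≤ |u m ^ 2| + |l * u m * v m| + |v m ^ 2| := by gcongr; exact abs_sub _ _
        _ = |u m| * |u m| + |l| * (|u m| * |v m|) + |v m| * |v m| := by
            rw [abs_pow, abs_pow, abs_mul, abs_mul]; ring
        _ ≤ (2 + |l|) * (|v m| * |v m|) := by linarith
        _ ≤ (2 + |l|) * (|v 0| * (|v 0| * (1 / 2) ^ m)) := by gcongr
        _ = _ := by ring
    have h4 : Tendsto (fun m : ℕ => (2 + |l|) * |v 0| ^ 2 * (1 / 2 : ℝ) ^ m) atTop (𝓝 0) := by
      have := (tendsto_pow_atTop_nhds_zero_of_lt_one (r := (1 / 2 : ℝ)) (by norm_num)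
        (by norm_num)).const_mul ((2 + |l|) * |v 0| ^ 2)
      simpa using this
    have h5 := ge_of_tendsto' h4 h3
    exact hQ (abs_nonpos_iff.1 h5)
  obtain ⟨m, hm1, hm2⟩ := hex
  have hgrow : ∀ k, |v (m + k)| ≤ |u (m + k)| ∧ 2 ^ k * |u m| ≤ |u (m + k)| := by
    intro k
    induction k with
    | zero => simp [hm1]
    | succ k ih =>
      have h1 := hstep (m + k)
      rw [← add_assoc, hv, pow_succ]
      constructor <;> linarith [ih.1, ih.2, abs_nonneg (u (m + k))]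
  have hpos : 0 < |u m| := abs_pos.2 hm2
  obtain ⟨k0, hk0⟩ := pow_unbounded_of_one_lt (c / |u m|) (one_lt_two (α := ℝ))
  refine ⟨m + k0, fun n hn => ?_⟩
  obtain ⟨k, rfl⟩ : ∃ k, n = m + k := ⟨n - m, by omega⟩
  have h1 : (2 : ℝ) ^ k0 ≤ 2 ^ k := pow_le_pow_right₀ one_le_two (by omega)
  rw [div_lt_iff₀ hpos] at hk0
  calc c ≤ 2 ^ k0 * |u m| := hk0.le
    _ ≤ 2 ^ k * |u m| := by gcongr
    _ ≤ _ := (hgrow k).2

lemma barrier (U : List ℝ) (c : ℝ) {ε : ENNReal} (hε : 0 < ε) : ∃ V : List ℝ, V ≠ [] ∧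
    (∀ d ∈ V, |d| ≤ 11) ∧ mI {E | |T (U ++ V) E 0 0| < c} ≤ ε := by
  obtain ⟨p, q, r, s, he, -⟩ := exists_poly U
  obtain ⟨b, hb, hQ⟩ : ∃ b : ℝ, (b = 10 ∨ b = 11) ∧ p ^ 2 - (X - C b) * p * q + q ^ 2 ≠ 0 := by
    by_contra hcon
    push Not at hcon
    have h1 := congrArg (eval 0) (hcon 10 (Or.inl rfl))
    have h2 := congrArg (eval 0) (hcon 11 (Or.inr rfl))
    simp at h1 h2
    obtain ⟨e1, e2, -, -⟩ := he 0
    have hd := det_T U 0
    rw [Matrix.det_fin_two, e1, e2] at hd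
    have h3 : eval 0 p * eval 0 q = 0 := by linarith
    have h4 : eval 0 p ^ 2 + eval 0 q ^ 2 = 0 := by linarith
    have h5 : eval 0 p = 0 := by nlinarith [sq_nonneg (eval 0 p), sq_nonneg (eval 0 q)]
    have h6 : eval 0 q = 0 := by nlinarith [sq_nonneg (eval 0 p), sq_nonneg (eval 0 q)]
    rw [h5, h6] at hd
    simp at hd
  set S : ℕ → Set ℝ := fun N => {E | ∃ n, N ≤ n ∧ |T (U ++ rep [b] n) E 0 0| < c} with hS
  have hanti : Antitone S := by
    intro a a' h E ⟨n, hn, h2⟩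
    exact ⟨n, h.trans hn, h2⟩
  have hmeas : ∀ N, MeasurableSet (S N) := by
    intro N
    have : S N = ⋃ n, ⋃ _ : N ≤ n, {E | |T (U ++ rep [b] n) E 0 0| < c} := by
      ext E; simp [hS]
    rw [this]
    exact MeasurableSet.iUnion fun n => MeasurableSet.iUnion fun _ =>
      (isOpen_lt (continuous_T_entry _ 0 0).abs continuous_const).measurableSet
  have hlim := tendsto_measure_iInter_atTop (μ := mI) (fun N => (hmeas N).nullMeasurableSet) hanti
    ⟨0, measure_ne_top _ _⟩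
  have h0 : mI (⋂ N, S N) = 0 := by
    have hfin : mI {E | IsRoot (p ^ 2 - (X - C b) * p * q + q ^ 2) E} = 0 :=
      Measure.absolutelyContinuous_of_le Measure.restrict_le_self
        ((finite_setOfPred_isRoot hQ).measure_zero volume)
    refine measure_mono_null_ae ?_ hfin
    filter_upwards [ae_restrict_mem (μ := volume) (measurableSet_Icc (a := (-1 : ℝ)) (b := 1))]
      with E hE hmem
    by_contra hroot
    have hl : 3 ≤ |E - b| := by
      rw [abs_sub_comm]
      refine le_trans ?_ (le_abs_self _)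
      rcases hb with rfl | rfl <;> linarith [hE.2]
    obtain ⟨N, hN⟩ := barrier_seq (u := fun n => T (U ++ rep [b] n) E 0 0)
      (v := fun n => T (U ++ rep [b] n) E 1 0) hl
      (fun n => by simp only [rep]; rw [← List.append_assoc, T_snoc_00])
      (fun n => by simp only [rep]; rw [← List.append_assoc, T_snoc_10])
      (by
        obtain ⟨e1, e2, -, -⟩ := he E
        simp only [rep, List.append_nil, e1, e2]
        intro h
        apply hroot
        show IsRoot _ E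
        simp only [IsRoot.def, eval_add, eval_sub, eval_mul, eval_pow, eval_X, eval_C]
        exact h) c
    obtain ⟨n, hn, h⟩ := Set.mem_iInter.1 hmem N
    linarith [hN n hn]
  rw [h0] at hlim
  obtain ⟨N, hN, hN1⟩ := ((hlim.eventually (gt_mem_nhds hε)).and (eventually_ge_atTop 1)).exists
  refine ⟨rep [b] N, ?_, ?_, le_trans (measure_mono ?_) hN.le⟩
  · obtain ⟨m, rfl⟩ : ∃ m, N = m + 1 := ⟨N - 1, by omega⟩
    simp [rep]
  · intro d hd
    have := mem_rep hd
    rw [List.mem_singleton] at this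
    rw [this]
    rcases hb with rfl | rfl <;> norm_num
  · intro E hE
    exact ⟨N, le_rfl, hE⟩

lemma stage (U : List ℝ) (k : ℕ) : ∃ U' : List ℝ, U <+: U' ∧ U.length < U'.length ∧
    ((∀ c ∈ U, |c| ≤ 11) → ∀ c ∈ U', |c| ≤ 11) ∧
    ENNReal.ofReal (1 / 2) ≤ mI {E | ∃ P, U <+: P ∧ P <+: U' ∧ nu (T P E) ≤ 8} ∧
    mI {E | |T U' E 0 0| < 2 ^ k} ≤ ENNReal.ofReal (1 / 8 * (1 / 2) ^ k) := by
  obtain ⟨V, hV, hm⟩ := key_lemma U
  obtain ⟨V', hV'0, hV', hm'⟩ := barrier (U ++ V) (2 ^ k) (ε := ENNReal.ofReal (1 / 8 * (1 / 2) ^ k))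
    (by rw [ENNReal.ofReal_pos]; positivity)
  refine ⟨U ++ V ++ V', ?_, ?_, ?_, hm.trans (measure_mono ?_), hm'⟩
  · rw [List.append_assoc]; exact List.prefix_append _ _
  · have := List.length_pos_iff.2 hV'0
    simp; omega
  · intro h c hc
    simp only [List.mem_append] at hc
    rcases hc with (hc | hc) | hc
    · exact h c hc
    · linarith [hV c hc]
    · exact hV' c hc
  · rintro E ⟨P, hP, h⟩
    exact ⟨U ++ P, List.prefix_append _ _,
      ((List.prefix_append_right_inj _).2 hP).trans (List.prefix_append _ _), h⟩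

lemma chain_seq {U : ℕ → List ℝ} (h1 : ∀ k, U k <+: U (k + 1)) (h2 : ∀ k, k ≤ (U k).length) :
    ∃ b : ℕ → ℝ, (∀ n, ∃ k, b n ∈ U k) ∧ ∀ k P, P <+: U k → (List.range P.length).map b = P := by
  have hmono : ∀ a a', a ≤ a' → U a <+: U a' := by
    intro a a' h
    induction a', h using Nat.le_induction with
    | base => exact List.prefix_rfl
    | succ n _ ih => exact ih.trans (h1 n)
  refine ⟨fun n => (U (n + 1))[n]'(h2 (n + 1)), fun n => ⟨n + 1, List.getElem_mem _⟩, fun k P hP => ?_⟩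
  apply List.ext_getElem (by simp)
  intro i hi1 hi2
  simp only [List.getElem_map, List.getElem_range]
  have a1 : U (i + 1) <+: U (max k (i + 1)) := hmono _ _ (le_max_right _ _)
  have a2 : P <+: U (max k (i + 1)) := hP.trans (hmono _ _ (le_max_left _ _))
  rw [a1.getElem, a2.getElem]

/-- transfer matrix over the first `n` sites -/
def TT (b : ℕ → ℝ) (n : ℕ) (E : ℝ) : M2 := T ((List.range n).map b) E

theorem dynamics : ∃ b : ℕ → ℝ, (∀ n, |b n| ≤ 11) ∧ ∃ Z : Set ℝ, MeasurableSet Z ∧ volume Z ≠ 0 ∧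
    (∀ E ∈ Z, ∀ N, ∃ n, N ≤ n ∧ ∀ i j, |TT b n E i j| ≤ 8) ∧
    ∃ m : ℕ → ℕ, ∀ k, ∀ E ∈ Z, 2 ^ k ≤ |TT b (m k) E 0 0| := by
  choose f hf using stage
  let U : ℕ → List ℝ := fun k => Nat.rec [] (fun k W => f W k) k
  have hU : ∀ k, U (k + 1) = f (U k) k := fun k => rfl
  have h1 : ∀ k, U k <+: U (k + 1) := fun k => (hf (U k) k).1
  have h2 : ∀ k, k ≤ (U k).length := by
    intro k
    induction k with
    | zero => exact Nat.zero_le _
    | succ k ih => have := (hf (U k) k).2.1; rw [← hU] at this; omega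
  have h3 : ∀ k, ∀ c ∈ U k, |c| ≤ 11 := by
    intro k
    induction k with
    | zero => intro c hc; simp [U] at hc
    | succ k ih => exact (hf (U k) k).2.2.1 ih
  obtain ⟨b, hb1, hb2⟩ := chain_seq h1 h2
  have hTT : ∀ k P, P <+: U k → ∀ E, TT b P.length E = T P E := by
    intro k P hP E; rw [TT, hb2 k P hP]
  set S : ℕ → Set ℝ := fun N => {E | ∃ n, N ≤ n ∧ nu (TT b n E) ≤ 8} with hS
  have hanti : Antitone S := by
    intro a a' h E ⟨n, hn, h2⟩
    exact ⟨n, h.trans hn, h2⟩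
  have hmeas : ∀ N, MeasurableSet (S N) := by
    intro N
    have : S N = ⋃ n, ⋃ _ : N ≤ n, {E | nu (TT b n E) ≤ 8} := by
      ext E; simp [hS]
    rw [this]
    exact MeasurableSet.iUnion fun n => MeasurableSet.iUnion fun _ =>
      (isClosed_le (continuous_nu.comp (continuous_T _)) continuous_const).measurableSet
  have hlim := tendsto_measure_iInter_atTop (μ := mI) (fun N => (hmeas N).nullMeasurableSet) hanti
    ⟨0, measure_ne_top _ _⟩
  have hG : ENNReal.ofReal (1 / 2) ≤ mI (⋂ N, S N) := by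
    refine ge_of_tendsto' hlim fun N => ?_
    refine (hf (U N) N).2.2.2.1.trans (measure_mono ?_)
    rintro E ⟨P, hP1, hP2, h⟩
    refine ⟨P.length, (h2 N).trans hP1.length_le, ?_⟩
    rw [hTT (N + 1) P hP2]; exact h
  set Bd : ℕ → Set ℝ := fun k => {E | |T (U (k + 1)) E 0 0| < 2 ^ k} with hBd
  have hBm : ∀ k, MeasurableSet (Bd k) := fun k =>
    (isOpen_lt (continuous_T_entry _ 0 0).abs continuous_const).measurableSet
  have hB : mI (⋃ k, Bd k) ≤ ENNReal.ofReal (1 / 4) := by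
    refine (measure_iUnion_le _).trans ?_
    calc ∑' k, mI (Bd k) ≤ ∑' k : ℕ, ENNReal.ofReal (1 / 8 * (1 / 2) ^ k) :=
          ENNReal.tsum_le_tsum fun k => (hf (U k) k).2.2.2.2
      _ = ENNReal.ofReal (∑' k : ℕ, 1 / 8 * (1 / 2) ^ k) := by
          rw [ENNReal.ofReal_tsum_of_nonneg (fun k => by positivity)
            (summable_geometric_two.mul_left _)]
      _ = ENNReal.ofReal (1 / 4) := by
          rw [tsum_mul_left, tsum_geometric_two]; norm_num
  refine ⟨b, fun n => ?_, (⋂ N, S N) \ ⋃ k, Bd k,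
    (MeasurableSet.iInter hmeas).diff (MeasurableSet.iUnion hBm), ?_, ?_,
    fun k => (U (k + 1)).length, ?_⟩
  · obtain ⟨k, hk⟩ := hb1 n
    exact h3 k _ hk
  · intro h0
    have h4 : mI ((⋂ N, S N) \ ⋃ k, Bd k) = 0 :=
      le_antisymm ((Measure.restrict_le_self _).trans h0.le) (by simp)
    have h5 := measure_le_inter_add_sdiff mI (⋂ N, S N) (⋃ k, Bd k)
    rw [h4, add_zero] at h5
    have h6 := hG.trans (h5.trans ((measure_mono Set.inter_subset_right).trans hB))
    rw [ENNReal.ofReal_le_ofReal_iff (by norm_num)] at h6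
    norm_num at h6
  · intro E hE N
    obtain ⟨n, hn, h⟩ := Set.mem_iInter.1 hE.1 N
    exact ⟨n, hn, fun i j => (entry_le_nu _ i j).trans h⟩
  · intro k E hE
    rw [hTT (k + 1) _ List.prefix_rfl]
    by_contra h
    exact hE.2 (Set.mem_iUnion.2 ⟨k, not_le.1 h⟩)

end Pool.Agent.H359Z.TM
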