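import Pool.Agent.H359Z.TM.SU

set_option autoImplicit false

namespace Pool.Agent.H359Z.TM

/-- elliptic matrix with fixed point `x + i y` and angle `θ` -/
noncomputable def Em (x y θ : ℝ) : M2 :=
  !![Real.cos θ + x * Real.sin θ / y, -(x ^ 2 + y ^ 2) * Real.sin θ / y;
     Real.sin θ / y, Real.cos θ - x * Real.sin θ / y]

noncomputable def Ci (x s : ℝ) : M2 := !![s, x / s; 0, s⁻¹]

noncomputable def Cm (x s : ℝ) : M2 := !![s⁻¹, -x / s; 0, s]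

lemma det_Ci (x : ℝ) {s : ℝ} (hs : s ≠ 0) : (Ci x s).det = 1 := by
  rw [Ci, Matrix.det_fin_two_of]; field_simp; ring

lemma det_Cm (x : ℝ) {s : ℝ} (hs : s ≠ 0) : (Cm x s).det = 1 := by
  rw [Cm, Matrix.det_fin_two_of]; field_simp; ring

lemma Cm_mul_Ci (x : ℝ) {s : ℝ} (hs : s ≠ 0) : Cm x s * Ci x s = 1 := by
  ext i j
  fin_cases i <;> fin_cases j <;> simp [Cm, Ci, Matrix.mul_apply, Fin.sum_univ_two] <;> field_simp
  ring

lemma Ci_mul_Cm (x : ℝ) {s : ℝ} (hs : s ≠ 0) : Ci x s * Cm x s = 1 := by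
  ext i j
  fin_cases i <;> fin_cases j <;> simp [Cm, Ci, Matrix.mul_apply, Fin.sum_univ_two] <;> field_simp
  ring

lemma Em_eq (x θ : ℝ) {s : ℝ} (hs : s ≠ 0) : Em x (s ^ 2) θ = Ci x s * rot θ * Cm x s := by
  ext i j
  fin_cases i <;> fin_cases j <;>
    simp [Em, Cm, Ci, rot, Matrix.mul_apply, Fin.sum_univ_two] <;> field_simp <;> ring

lemma Em_pow (x θ : ℝ) {s : ℝ} (hs : s ≠ 0) (n : ℕ) :
    Em x (s ^ 2) θ ^ n = Em x (s ^ 2) (n * θ) := by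
  induction n with
  | zero => rw [pow_zero, Em_eq _ _ hs]; simp [rot_zero, Ci_mul_Cm _ hs]
  | succ n ih =>
    rw [pow_succ, ih, Em_eq _ _ hs, Em_eq _ _ hs, Em_eq _ _ hs]
    have : ((n + 1 : ℕ) : ℝ) * θ = n * θ + θ := by push_cast; ring
    rw [this, rot_add]
    calc Ci x s * rot (n * θ) * Cm x s * (Ci x s * rot θ * Cm x s)
        = Ci x s * rot (n * θ) * (Cm x s * Ci x s) * rot θ * Cm x s := by
          simp only [Matrix.mul_assoc]
      _ = Ci x s * (rot (n * θ) * rot θ) * Cm x s := by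
          rw [Cm_mul_Ci _ hs]; simp only [Matrix.mul_assoc, Matrix.one_mul]

/-- trace -/
def trc (M : M2) : ℝ := M 0 0 + M 1 1

noncomputable def Yf (M : M2) : ℝ := Real.sqrt (4 - trc M ^ 2) / (2 * |M 1 0|)

noncomputable def Xf (M : M2) : ℝ := (M 0 0 - M 1 1) / (2 * M 1 0)

noncomputable def Sf (M : M2) : ℝ := Real.sqrt (Yf M)

lemma c_ne_zero {M : M2} (hd : M.det = 1) (ht : |trc M| < 2) : M 1 0 ≠ 0 := by
  intro h
  rw [Matrix.det_fin_two, h] at hd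
  unfold trc at ht
  have h2 : (M 0 0 + M 1 1) ^ 2 < 2 ^ 2 := sq_lt_sq' (abs_lt.1 ht).1 (abs_lt.1 ht).2
  nlinarith [sq_nonneg (M 0 0 - M 1 1)]

lemma four_sub_pos {M : M2} (ht : |trc M| < 2) : 0 < 4 - trc M ^ 2 := by
  have h2 : (trc M) ^ 2 < 2 ^ 2 := sq_lt_sq' (abs_lt.1 ht).1 (abs_lt.1 ht).2
  linarith

lemma Yf_pos {M : M2} (hd : M.det = 1) (ht : |trc M| < 2) : 0 < Yf M := by
  have := c_ne_zero hd ht
  have := four_sub_pos ht
  unfold Yf
  positivity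

lemma Yf_sq {M : M2} (ht : |trc M| < 2) : Yf M ^ 2 = (4 - trc M ^ 2) / (4 * M 1 0 ^ 2) := by
  have := four_sub_pos ht
  unfold Yf
  rw [div_pow, Real.sq_sqrt this.le, mul_pow, sq_abs]
  norm_num

lemma Sf_pos {M : M2} (hd : M.det = 1) (ht : |trc M| < 2) : 0 < Sf M :=
  Real.sqrt_pos.2 (Yf_pos hd ht)

lemma Sf_sq {M : M2} (hd : M.det = 1) (ht : |trc M| < 2) : Sf M ^ 2 = Yf M :=
  Real.sq_sqrt (Yf_pos hd ht).le

lemma ell_exists {M : M2} (hd : M.det = 1) (ht : |trc M| < 2) :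
    ∃ θ : ℝ, M = Em (Xf M) (Yf M) θ ∧ 2 * Real.cos θ = trc M := by
  have hc := c_ne_zero hd ht
  have hy := Yf_pos hd ht
  have hy2 := Yf_sq ht
  set y := Yf M with hydef
  have hunit : (trc M / 2) ^ 2 + (M 1 0 * y) ^ 2 = 1 := by
    rw [mul_pow, hy2]; field_simp; ring
  set z : ℂ := ⟨trc M / 2, M 1 0 * y⟩ with hz
  have hnorm : ‖z‖ = 1 := by
    have : ‖z‖ ^ 2 = 1 := by
      rw [Complex.sq_norm, Complex.normSq_apply]; simp only [hz]; nlinarith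
    have h0 := norm_nonneg z
    nlinarith
  have hz0 : z ≠ 0 := by intro h; rw [h] at hnorm; simp at hnorm
  have hcos : Real.cos z.arg = trc M / 2 := by rw [Complex.cos_arg hz0, hnorm]; simp [hz]
  have hsin : Real.sin z.arg = M 1 0 * y := by rw [Complex.sin_arg, hnorm]; simp [hz]
  refine ⟨z.arg, ?_, by rw [hcos]; ring⟩
  rw [Matrix.det_fin_two] at hd
  ext i j
  fin_cases i <;> fin_cases j
  · simp [Em, hcos, hsin, Xf, trc]; field_simp; ring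
  · simp only [Em, hsin, Xf, Fin.zero_eta, Fin.mk_one, Fin.isValue, Matrix.of_apply, Matrix.cons_val',
      Matrix.cons_val_one, Matrix.cons_val_fin_one, Matrix.cons_val_zero]
    have : -(((M 0 0 - M 1 1) / (2 * M 1 0)) ^ 2 + y ^ 2) * (M 1 0 * y) / y
        = -(((M 0 0 - M 1 1) / (2 * M 1 0)) ^ 2 + y ^ 2) * M 1 0 := by field_simp
    rw [this, hy2]
    unfold trc
    field_simp
    nlinarith
  · simp [Em, hsin]; field_simp
  · simp [Em, hcos, hsin, Xf, trc]; field_simp; ring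

/-- unipotent shift -/
def Nb (β : ℝ) : M2 := !![1, -β; 0, 1]

lemma det_Nb (β : ℝ) : (Nb β).det = 1 := by rw [Nb, Matrix.det_fin_two_of]; ring

lemma step_facts {x y φ β : ℝ} (hy : 0 < y) (hs : Real.sin φ ≠ 0)
    (ha : 0 < 1 + (β / y * Real.cos φ / Real.sin φ - (β / y) ^ 2 / 4)) :
    |trc (Nb β * Em x y φ)| < 2 ∧ Xf (Nb β * Em x y φ) = x - β / 2 ∧
      Yf (Nb β * Em x y φ) ^ 2 = y ^ 2 * (1 + (β / y * Real.cos φ / Real.sin φ - (β / y) ^ 2 / 4)) := by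
  have e00 : (Nb β * Em x y φ) 0 0 = Real.cos φ + x * Real.sin φ / y - β * (Real.sin φ / y) := by
    simp [Nb, Em, Matrix.mul_apply, Fin.sum_univ_two]; ring
  have e10 : (Nb β * Em x y φ) 1 0 = Real.sin φ / y := by
    simp [Nb, Em, Matrix.mul_apply, Fin.sum_univ_two]
  have e11 : (Nb β * Em x y φ) 1 1 = Real.cos φ - x * Real.sin φ / y := by
    simp [Nb, Em, Matrix.mul_apply, Fin.sum_univ_two]
  have etr : trc (Nb β * Em x y φ) = 2 * Real.cos φ - β / y * Real.sin φ := by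
    unfold trc; rw [e00, e11]; ring
  have hkey : 4 - trc (Nb β * Em x y φ) ^ 2
      = 4 * Real.sin φ ^ 2 * (1 + (β / y * Real.cos φ / Real.sin φ - (β / y) ^ 2 / 4)) := by
    rw [etr]
    have h1 := Real.sin_sq_add_cos_sq φ
    have h2 : 4 * Real.sin φ ^ 2 * (1 + (β / y * Real.cos φ / Real.sin φ - (β / y) ^ 2 / 4))
        = 4 * Real.sin φ ^ 2 + 4 * (β / y) * Real.cos φ * Real.sin φ - (β / y) ^ 2 * Real.sin φ ^ 2 := by
      field_simp; ring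
    rw [h2]
    nlinarith
  have hpos : 0 < 4 - trc (Nb β * Em x y φ) ^ 2 := by
    rw [hkey]; positivity
  have ht : |trc (Nb β * Em x y φ)| < 2 := by
    apply abs_lt_of_sq_lt_sq _ (by norm_num)
    linarith
  refine ⟨ht, ?_, ?_⟩
  · unfold Xf; rw [e00, e10, e11]; field_simp; ring
  · rw [Yf_sq ht, hkey, e10]; field_simp

lemma Cm_mul_Ci' (x x' : ℝ) {s s' : ℝ} (hs : s ≠ 0) (hs' : s' ≠ 0) :
    Cm x s * Ci x' s' = !![s' / s, (x' - x) / (s * s'); 0, (s' / s)⁻¹] := by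
  ext i j
  fin_cases i <;> fin_cases j <;> simp [Cm, Ci, Matrix.mul_apply, Fin.sum_univ_two] <;> field_simp
  ring

/-- the gain in one step -/
lemma gain_le {x x' s s' a : ℝ} (hs : 0 < s) (hs' : 0 < s') (h : s' ^ 4 = s ^ 4 * (1 + a))
    (ha : |a| ≤ 1) : 1 ≤ nu (Cm x s * Ci x' s') ^ 4 * (1 - |a| / 2) := by
  rw [Cm_mul_Ci' _ _ hs.ne' hs'.ne']
  set p := s' / s with hp
  have hp0 : 0 < p := by positivity
  have hp4 : p ^ 4 = 1 + a := by rw [hp, div_pow, h]; field_simp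
  have h1 := nu_upper p ((x' - x) / (s * s')) hp0
  set ν := nu !![p, (x' - x) / (s * s'); 0, p⁻¹]
  have h2 : p ^ 4 ≤ ν ^ 4 := pow_le_pow_left₀ hp0.le ((le_max_left _ _).trans h1) 4
  have h3 : p⁻¹ ^ 4 ≤ ν ^ 4 := pow_le_pow_left₀ (by positivity) ((le_max_right _ _).trans h1) 4
  have h4 : 0 ≤ 1 - |a| / 2 := by linarith
  rcases le_total 0 a with h0 | h0
  · rw [abs_of_nonneg h0] at *
    calc 1 ≤ (1 + a) * (1 - a / 2) := by nlinarith
      _ ≤ ν ^ 4 * (1 - a / 2) := by rw [← hp4]; gcongr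
  · rw [abs_of_nonpos h0] at *
    have h5 : 0 < 1 + a := by rw [← hp4]; positivity
    have h6 : p⁻¹ ^ 4 * (1 + a) = 1 := by rw [← hp4]; field_simp
    calc 1 = p⁻¹ ^ 4 * (1 + a) := h6.symm
      _ ≤ p⁻¹ ^ 4 * (1 - -a / 2) := by gcongr; linarith
      _ ≤ ν ^ 4 * (1 - -a / 2) := by gcongr

lemma nu_Ci_le {x s : ℝ} (hx : |x| ≤ 1) (h1 : 1 / 2 ≤ s) (h2 : s ≤ 2) : nu (Ci x s) ≤ 6 := by
  have h := nu_le_sum (Ci x s)
  have hs : 0 < s := by linarith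
  have h3 : s⁻¹ ≤ 2 := by rw [inv_le_comm₀ hs (by norm_num)]; linarith
  simp [Ci] at h
  rw [abs_of_pos hs, abs_div, abs_of_pos hs] at h
  have h4 : |x| / s ≤ 2 := by rw [div_le_iff₀ hs]; linarith
  unfold Ci
  linarith

lemma nu_Cm_le {x s : ℝ} (hx : |x| ≤ 1) (h1 : 1 / 2 ≤ s) (h2 : s ≤ 2) : nu (Cm x s) ≤ 6 := by
  have h := nu_le_sum (Cm x s)
  have hs : 0 < s := by linarith
  have h3 : s⁻¹ ≤ 2 := by rw [inv_le_comm₀ hs (by norm_num)]; linarith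
  simp [Cm] at h
  rw [abs_of_pos hs, abs_div, abs_of_pos hs, abs_neg] at h
  have h4 : |x| / s ≤ 2 := by rw [div_le_iff₀ hs]; linarith
  unfold Cm
  linarith

end Pool.Agent.H359Z.TM
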