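import Pool.Agent.H359Z.TM.Step2

set_option autoImplicit false

namespace Pool.Agent.H359Z.TM

open MeasureTheory Filter Topology Real

lemma drift_ineq {u y β A B q lam G : ℝ} (hβ : 0 < β) (hu : u = β / y) (hy : 0 < y)
    (hy1 : 1 / 4 ≤ y) (hy4 : y ≤ 4) (hB : 0 < B) (hA : A = 8 * B + 1) (hq : q = B * β) (hq1 : q ≤ 1)
    (hlam : 0 ≤ lam) (hG : 0 < G) :
    22 * u + lam * (1 + q / 2) * (1 + q / 2) / G ^ 4 * (1 + u / 8 - A * u / 2)
      ≤ 88 * β + lam / G ^ 4 := by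
  have hu1 : u ≤ 4 * β := by rw [hu, div_le_iff₀ hy]; nlinarith
  have hu2 : β / 4 ≤ u := by rw [hu]; gcongr
  have hq0 : 0 < q := by rw [hq]; positivity
  have h1 : 1 + u / 8 - A * u / 2 ≤ 1 - q := by
    rw [hA, hq]; nlinarith
  have h2 : (1 + q / 2) * (1 + q / 2) * (1 - q) ≤ 1 := by nlinarith [sq_nonneg q, mul_pos hq0 (mul_pos hq0 hq0)]
  have h3 : lam * (1 + q / 2) * (1 + q / 2) / G ^ 4 * (1 + u / 8 - A * u / 2)
      ≤ lam * (1 + q / 2) * (1 + q / 2) / G ^ 4 * (1 - q) := by gcongr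
  have h4 : lam * (1 + q / 2) * (1 + q / 2) / G ^ 4 * (1 - q)
      = lam / G ^ 4 * ((1 + q / 2) * (1 + q / 2) * (1 - q)) := by ring
  have h5 : lam / G ^ 4 * ((1 + q / 2) * (1 + q / 2) * (1 - q)) ≤ lam / G ^ 4 * 1 := by gcongr
  linarith

lemma one_le_Gf {W : List ℝ} {E : ℝ} (ht : |trc (T W E)| < 2) : 1 ≤ Gf W E := by
  obtain ⟨P, -, hGP⟩ := exists_Gf W E
  rw [hGP]
  apply one_le_nu
  rw [Matrix.det_mul, det_T, det_Ci _ (Sf_pos (det_T _ _) ht).ne', one_mul]

lemma cesaro_point {W0 : List ℝ} {b β κ lam B E u0 : ℝ} (hβ : 0 < β) (hβ1 : 4 * β ≤ 1)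
    (hlam : 0 ≤ lam) (hB : 0 < B) (hq1 : B * β ≤ 1) (hu0 : 4 * β ≤ u0)
    (hA : ∀ u : ℝ, 0 < u → u ≤ u0 →
      (8 * B + 1) * u ≤ (∫ x in (-(π / 2))..(-(π / 2) + π), |xb u x|) / π)
    (hirr : ∀ θ : ℝ, 2 * Real.cos θ = trc (T (W0 ++ [b]) E) → Irrational (θ / π))
    {ε : ℝ} (hε : 0 < ε) :
    ∀ᶠ N : ℕ in atTop, (∑ L ∈ Finset.range N,
      Psi (nextW W0 b β L) (κ + β / 2) (lam * (1 + B * β / 2)) E) / N
        ≤ (Psi (W0 ++ [b]) κ lam E + 88 * β) + ε := by
  set q := B * β with hq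
  have hq0 : 0 < q := by positivity
  rcases lt_or_ge (Psi (W0 ++ [b]) κ lam E) 1 with h1 | h1
  swap
  · filter_upwards [eventually_gt_atTop 0] with N hN
    have hN' : (0 : ℝ) < N := by exact_mod_cast hN
    rw [div_le_iff₀ hN']
    calc _ ≤ ∑ _L ∈ Finset.range N, (1 : ℝ) := Finset.sum_le_sum fun L _ => Psi_le_one _ _ _ _
      _ = 1 * N := by simp
      _ ≤ _ := by gcongr; linarith
  obtain ⟨ht, hx, hP⟩ := Psi_lt_one h1
  have hdet := det_T (W0 ++ [b]) E
  obtain ⟨θ, hθ, hcos⟩ := ell_exists hdet ht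
  have hG1 := one_le_Gf ht
  have hy := Yf_pos hdet ht
  have hpos : 0 ≤ lam / Gf (W0 ++ [b]) E ^ 4 := by positivity
  have hV : (Yf (T (W0 ++ [b]) E) ^ 2 + (Yf (T (W0 ++ [b]) E) ^ 2)⁻¹) / 16 < 1 := by linarith
  obtain ⟨L0, hL0⟩ := step_point (lam := lam * (1 + q / 2)) hβ hβ1 (by positivity) hq0 hq1 ht hx hV
    hθ (hirr θ hcos)
  set y := Yf (T (W0 ++ [b]) E) with hydef
  set G := Gf (W0 ++ [b]) E with hG
  have hy2 : 0 < y ^ 2 := by positivity
  have hy3 : 0 < (y ^ 2)⁻¹ := by positivity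
  have hy1 : 1 / 4 ≤ y := quarter_le hy (by linarith)
  have hy4 : y ≤ 4 := le_four (by linarith)
  set u := β / y with hu
  have hu0' : 0 < u := by positivity
  have hu1 : u ≤ 4 * β := by rw [hu, div_le_iff₀ hy]; nlinarith
  set H := lam * (1 + q / 2) * (1 + q / 2) / G ^ 4 with hH
  have hH0 : 0 ≤ H := by positivity
  have hint := integral_Fb (y := y) hu0' hH0 (hA u hu0' (hu1.trans hu0))
  have hdrift := drift_ineq hβ hu hy hy1 hy4 hB rfl hq hq1 hlam (by linarith : 0 < G)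
  have hw := weyl_real pi_pos (continuous_Fb hu0' y H) (periodic_Fb u y H) (hirr θ hcos) θ (-(π / 2))
  have hw2 : Tendsto (fun N : ℕ => (L0 : ℝ) / N) atTop (𝓝 0) := tendsto_const_div_atTop_nhds_zero_nat _
  have hw3 := hw.add hw2
  rw [add_zero] at hw3
  have hlt : (∫ x in (-(π / 2))..(-(π / 2) + π), Fb u y H x) / π
      < (Psi (W0 ++ [b]) κ lam E + 88 * β) + ε := by
    rw [hP]; linarith
  filter_upwards [hw3.eventually (gt_mem_nhds hlt), eventually_gt_atTop 0] with N hN hN0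
  refine le_trans ?_ hN.le
  have hN' : (0 : ℝ) < N := by exact_mod_cast hN0
  rw [← add_div]
  gcongr
  calc _ ≤ ∑ L ∈ Finset.range N, (Fb u y H (θ + L * θ) + if L < L0 then 1 else 0) := by
        apply Finset.sum_le_sum
        intro L _
        split_ifs with hL
        · have := (Db_nonneg u (θ + L * θ)).trans (Db_le_Fb (y := y) hu0' hH0 (θ + L * θ))
          linarith [Psi_le_one (nextW W0 b β L) (κ + β / 2) (lam * (1 + q / 2)) E]
        · rw [add_zero]; exact hL0 L (not_lt.1 hL)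
    _ ≤ _ := by
        rw [Finset.sum_add_distrib]
        gcongr
        rw [Finset.sum_boole]
        have : ((Finset.range N).filter (· < L0)).card ≤ L0 := by
          calc _ ≤ (Finset.range L0).card := Finset.card_le_card fun a ha => by
                simp at ha ⊢; exact ha.2
            _ = L0 := Finset.card_range _
        exact_mod_cast this

lemma choose_L {μ : Measure ℝ} [IsFiniteMeasure μ] {F : ℕ → ℝ → ℝ} {Φ : ℝ → ℝ}
    (hF : ∀ L, Measurable (F L)) (hF0 : ∀ L x, 0 ≤ F L x) (hF1 : ∀ L x, F L x ≤ 1)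
    (hΦ : Measurable Φ) (hΦ0 : ∀ x, 0 ≤ Φ x) {c : ℝ} (hΦ1 : ∀ x, Φ x ≤ c)
    (h : ∀ᵐ x ∂μ, ∀ ε : ℝ, 0 < ε → ∀ᶠ N : ℕ in atTop, (∑ L ∈ Finset.range N, F L x) / N ≤ Φ x + ε)
    {ε : ℝ} (hε : 0 < ε) : ∃ L, ∫ x, F L x ∂μ ≤ ∫ x, Φ x ∂μ + ε := by
  set g : ℕ → ℝ → ℝ := fun N x => max ((∑ L ∈ Finset.range N, F L x) / N - Φ x) 0 with hg
  have hFi : ∀ L, Integrable (F L) μ := fun L =>
    Integrable.of_bound (hF L).aestronglyMeasurable 1 (Eventually.of_forall fun x => by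
      rw [Real.norm_eq_abs, abs_of_nonneg (hF0 L x)]; exact hF1 L x)
  have hΦi : Integrable Φ μ :=
    Integrable.of_bound hΦ.aestronglyMeasurable c (Eventually.of_forall fun x => by
      rw [Real.norm_eq_abs, abs_of_nonneg (hΦ0 x)]; exact hΦ1 x)
  have hgm : ∀ N, Measurable (g N) := fun N =>
    ((((Finset.measurable_sum _ fun L _ => hF L)).div_const _).sub hΦ).max measurable_const
  have havg : ∀ (N : ℕ) x, (∑ L ∈ Finset.range N, F L x) / N ≤ 1 := by
    intro N x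
    rcases Nat.eq_zero_or_pos N with rfl | hN
    · simp
    have hN' : (0 : ℝ) < N := by exact_mod_cast hN
    rw [div_le_one hN']
    calc _ ≤ ∑ _L ∈ Finset.range N, (1 : ℝ) := Finset.sum_le_sum fun L _ => hF1 L x
      _ = N := by simp
  have hgb : ∀ N x, ‖g N x‖ ≤ 1 := by
    intro N x
    rw [Real.norm_eq_abs, abs_of_nonneg (le_max_right _ _)]
    exact max_le (by linarith [havg N x, hΦ0 x]) zero_le_one
  have hlim : Tendsto (fun N => ∫ x, g N x ∂μ) atTop (𝓝 (∫ _x, (0 : ℝ) ∂μ)) := by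
    apply tendsto_integral_of_dominated_convergence (fun _ => 1)
      (fun N => (hgm N).aestronglyMeasurable) (integrable_const _)
      (fun N => Eventually.of_forall (hgb N))
    filter_upwards [h] with x hx
    rw [Metric.tendsto_nhds]
    intro η hη
    filter_upwards [hx (η / 2) (by positivity)] with N hN
    rw [Real.dist_eq, sub_zero, abs_of_nonneg (le_max_right _ _)]
    exact max_lt (by linarith) hη
  rw [integral_zero] at hlim
  obtain ⟨N, hN, hN0⟩ := ((hlim.eventually (gt_mem_nhds hε)).and (eventually_gt_atTop 0)).exists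
  have hN' : (0 : ℝ) < N := by exact_mod_cast hN0
  have hsi : Integrable (fun x => (∑ L ∈ Finset.range N, F L x) / N) μ :=
    (integrable_finsetSum _ fun L _ => hFi L).div_const _
  have hgi : Integrable (g N) μ :=
    Integrable.of_bound (hgm N).aestronglyMeasurable 1 (Eventually.of_forall (hgb N))
  have h1 : ∫ x, (∑ L ∈ Finset.range N, F L x) / N ∂μ ≤ ∫ x, (Φ x + g N x) ∂μ := by
    apply integral_mono hsi (hΦi.add hgi)
    intro x
    have := le_max_left ((∑ L ∈ Finset.range N, F L x) / N - Φ x) 0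
    simp only [hg, Pi.add_apply]
    linarith
  rw [integral_add hΦi hgi, integral_div, integral_finsetSum _ fun L _ => hFi L, div_le_iff₀ hN'] at h1
  have h2 : ∑ L ∈ Finset.range N, ∫ x, F L x ∂μ ≤ ∑ _L ∈ Finset.range N, (∫ x, Φ x ∂μ + ε) := by
    rw [Finset.sum_const, Finset.card_range, nsmul_eq_mul]
    calc _ ≤ _ := h1
      _ ≤ (∫ x, Φ x ∂μ + ε) * N := by gcongr
      _ = _ := by ring
  obtain ⟨L, -, hL⟩ := Finset.exists_le_of_sum_le ⟨0, Finset.mem_range.2 hN0⟩ h2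
  exact ⟨L, hL⟩

/-- Lebesgue measure on the energy window -/
noncomputable def mI : Measure ℝ := volume.restrict (Set.Icc (-1 : ℝ) 1)

instance : IsFiniteMeasure mI := by unfold mI; infer_instance

lemma mI_univ : mI.real Set.univ = 2 := by
  simp [mI, Measure.real]; norm_num

lemma integrable_Psi (W : List ℝ) (κ : ℝ) {lam : ℝ} (h : 0 ≤ lam) : Integrable (Psi W κ lam) mI :=
  Integrable.of_bound (measurable_Psi _ _ _).aestronglyMeasurable 1 (Eventually.of_forall fun x => by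
    rw [Real.norm_eq_abs, abs_of_nonneg (Psi_nonneg _ _ h x)]; exact Psi_le_one _ _ _ _)

lemma step_int {W0 : List ℝ} {b β κ lam B u0 : ℝ} (hβ : 0 < β) (hβ1 : 4 * β ≤ 1)
    (hlam : 0 ≤ lam) (hB : 0 < B) (hq1 : B * β ≤ 1) (hu0 : 4 * β ≤ u0)
    (hA : ∀ u : ℝ, 0 < u → u ≤ u0 →
      (8 * B + 1) * u ≤ (∫ x in (-(π / 2))..(-(π / 2) + π), |xb u x|) / π) :
    ∃ L, ∫ E, Psi (nextW W0 b β L) (κ + β / 2) (lam * (1 + B * β / 2)) E ∂mI
      ≤ ∫ E, Psi (W0 ++ [b]) κ lam E ∂mI + 177 * β := by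
  have hl' : 0 ≤ lam * (1 + B * β / 2) := by positivity
  obtain ⟨L, hL⟩ := choose_L (μ := mI)
    (F := fun L E => Psi (nextW W0 b β L) (κ + β / 2) (lam * (1 + B * β / 2)) E)
    (Φ := fun E => Psi (W0 ++ [b]) κ lam E + 88 * β) (c := 1 + 88 * β)
    (fun L => measurable_Psi _ _ _) (fun L x => Psi_nonneg _ _ hl' x) (fun L x => Psi_le_one _ _ _ _)
    ((measurable_Psi _ _ _).add_const _)
    (fun x => by have := Psi_nonneg (W0 ++ [b]) κ hlam x; positivity)
    (fun x => by linarith [Psi_le_one (W0 ++ [b]) κ lam x]) (by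
      have h := ae_irrational (w := W0 ++ [b]) (by simp)
      have h2 : ∀ᵐ E ∂mI, ∀ θ : ℝ, 2 * Real.cos θ = trc (T (W0 ++ [b]) E) → Irrational (θ / π) :=
        ae_restrict_of_ae h
      filter_upwards [h2] with E hE ε hε
      exact cesaro_point hβ hβ1 hlam hB hq1 hu0 hA hE hε) hβ
  refine ⟨L, hL.trans ?_⟩
  rw [integral_add (integrable_Psi _ _ hlam) (integrable_const _), integral_const, mI_univ,
    smul_eq_mul]
  linarith

lemma Psi_init {E : ℝ} (hE : E ∈ Set.Icc (-1 : ℝ) 1) : Psi [0] (1 / 2) (1 / 16) E ≤ 1 / 4 := by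
  have h00 : T [0] E 0 0 = E := by simp [T_single, A1]
  have h10 : T [0] E 1 0 = 1 := by simp [T_single, A1]
  have h11 : T [0] E 1 1 = 0 := by simp [T_single, A1]
  have hE' : |E| ≤ 1 := abs_le.2 hE
  have htr : trc (T [0] E) = E := by simp [trc, h00, h11]
  have ht : |trc (T [0] E)| < 2 := by rw [htr]; linarith
  have hx : |Xf (T [0] E)| ≤ 1 / 2 := by
    unfold Xf; rw [h00, h10, h11, abs_div]; norm_num; linarith
  refine (Psi_le ht hx).trans ?_
  have hG := one_le_Gf ht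
  have hG4 : 1 ≤ Gf [0] E ^ 4 := one_le_pow₀ hG
  have h1 : 1 / 16 / Gf [0] E ^ 4 ≤ 1 / 16 := div_le_self (by norm_num) hG4
  rw [Yf_sq ht, htr, h10]
  have hE2 : E ^ 2 ≤ 1 := by nlinarith [hE.1, hE.2]
  have hE3 : 0 ≤ E ^ 2 := sq_nonneg _
  have h2 : ((4 - E ^ 2) / (4 * 1 ^ 2))⁻¹ ≤ 4 / 3 := by
    rw [inv_div, div_le_div_iff₀ (by linarith) (by norm_num)]; linarith
  linarith

lemma iterate {β B u0 : ℝ} (hβ : 0 < β) (hβ1 : 4 * β ≤ 1) (hB : 0 < B) (hq1 : B * β ≤ 1)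
    (hu0 : 4 * β ≤ u0)
    (hA : ∀ u : ℝ, 0 < u → u ≤ u0 →
      (8 * B + 1) * u ≤ (∫ x in (-(π / 2))..(-(π / 2) + π), |xb u x|) / π) (k : ℕ) :
    ∃ W : List ℝ, W ≠ [] ∧ (∀ c ∈ W, |c| ≤ k * β) ∧
      ∫ E, Psi W (1 / 2 + k * β / 2) (1 / 16 * (1 + B * β / 2) ^ k) E ∂mI ≤ 1 / 2 + 177 * (k * β) := by
  induction k with
  | zero =>
    refine ⟨[0], by simp, by simp, ?_⟩
    simp only [Nat.cast_zero, zero_mul, zero_div, add_zero, pow_zero, mul_one, mul_zero]
    calc _ ≤ ∫ _E, (1 / 4 : ℝ) ∂mI := by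
          apply integral_mono_ae (integrable_Psi _ _ (by norm_num)) (integrable_const _)
          filter_upwards [ae_restrict_mem (μ := volume) (measurableSet_Icc (a := (-1 : ℝ)) (b := 1))]
            with E hE using Psi_init hE
      _ = 1 / 2 := by rw [integral_const, mI_univ]; norm_num
  | succ k ih =>
    obtain ⟨W, hW, hc, hint⟩ := ih
    obtain ⟨W0, b, rfl⟩ : ∃ W0 b, W = W0 ++ [b] :=
      ⟨W.dropLast, W.getLast hW, (List.dropLast_append_getLast hW).symm⟩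
    obtain ⟨L, hL⟩ := step_int (W0 := W0) (b := b) (κ := 1 / 2 + k * β / 2)
      (lam := 1 / 16 * (1 + B * β / 2) ^ k) hβ hβ1 (by positivity) hB hq1 hu0 hA
    refine ⟨nextW W0 b β L, by simp [nextW], ?_, ?_⟩
    · intro c hcm
      push_cast
      simp only [nextW, List.mem_append, List.mem_singleton] at hcm
      rcases hcm with h | h | h
      · have := hc c (mem_rep h); linarith
      · have := hc c (by simp [h]); linarith
      · have := hc b (by simp)
        rw [h]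
        have h2 := abs_add_le b β
        rw [abs_of_pos hβ] at h2
        linarith
    · have e1 : (1 / 2 + ((k + 1 : ℕ) : ℝ) * β / 2) = 1 / 2 + k * β / 2 + β / 2 := by push_cast; ring
      have e2 : 1 / 16 * (1 + B * β / 2) ^ (k + 1) = 1 / 16 * (1 + B * β / 2) ^ k * (1 + B * β / 2) := by
        ring
      rw [e1, e2]
      push_cast
      linarith

end Pool.Agent.H359Z.TM
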