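import Pool.Agent.H359Z.TM.Iter

set_option autoImplicit false

namespace Pool.Agent.H359Z.TM

open MeasureTheory Filter Topology Real

lemma big_word (R : ℝ) : ∃ W : List ℝ, W ≠ [] ∧ (∀ c ∈ W, |c| ≤ 1) ∧
    ∃ lam : ℝ, R ^ 4 ≤ lam ∧ 0 ≤ lam ∧ ∃ κ ≤ 1, ∫ E, Psi W κ lam E ∂mI ≤ 1 := by
  set B : ℝ := 12800 * (R ^ 4 + 1) with hBdef
  have hR : 0 ≤ R ^ 4 := by positivity
  have hB : 0 < B := by positivity
  obtain ⟨u0, hu0, hA⟩ := integral_abs_xb (8 * B + 1)
  obtain ⟨K, hK⟩ := exists_nat_ge (max (max 1 B) u0⁻¹)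
  have hK1 : (1 : ℝ) ≤ K := ((le_max_left _ _).trans (le_max_left _ _)).trans hK
  have hKB : B ≤ K := ((le_max_right _ _).trans (le_max_left _ _)).trans hK
  have hKu : u0⁻¹ ≤ K := (le_max_right _ _).trans hK
  have hK0 : (0 : ℝ) < K := by linarith
  set β : ℝ := 1 / (400 * K) with hβdef
  have hβ : 0 < β := by positivity
  have hKβ : K * β = 1 / 400 := by rw [hβdef]; field_simp
  have h1 : 4 * β ≤ 1 := by nlinarith
  have h2 : B * β ≤ 1 := by nlinarith
  have h3 : 4 * β ≤ u0 := by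
    have : u0⁻¹ * β ≤ 1 / 400 := by nlinarith
    rw [inv_mul_le_iff₀ hu0] at this
    linarith
  obtain ⟨W, hW, hc, hint⟩ := iterate hβ h1 hB h2 h3 hA K
  rw [hKβ] at hc hint
  refine ⟨W, hW, fun c h => (hc c h).trans (by norm_num), 1 / 16 * (1 + B * β / 2) ^ K, ?_,
    by positivity, _, ?_, hint.trans (by norm_num)⟩
  · have h4 : 1 + (K : ℝ) * (B * β / 2) ≤ (1 + B * β / 2) ^ K :=
      one_add_mul_le_pow (by have : 0 < B * β := by positivity
                             linarith) K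
    have h5 : (K : ℝ) * (B * β / 2) = B / 800 := by
      calc (K : ℝ) * (B * β / 2) = B * (K * β) / 2 := by ring
        _ = B / 800 := by rw [hKβ]; ring
    rw [h5, hBdef] at h4
    linarith
  · norm_num

lemma one_le_good {f : ℝ → ℝ} (hf : Measurable f) (h0 : ∀ x, 0 ≤ f x) (h1 : ∀ x, f x ≤ 1)
    (hint : ∫ x, f x ∂mI ≤ 1) : 1 ≤ mI.real {x | f x < 1} := by
  have hfi : Integrable f mI :=
    Integrable.of_bound hf.aestronglyMeasurable 1 (Eventually.of_forall fun x => by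
      rw [Real.norm_eq_abs, abs_of_nonneg (h0 x)]; exact h1 x)
  have h2 := mul_meas_ge_le_integral_of_nonneg (μ := mI) (Eventually.of_forall h0) hfi 1
  have h3 : {x | f x < 1} = {x | 1 ≤ f x}ᶜ := by ext x; simp
  rw [h3, measureReal_compl (measurableSet_le measurable_const hf), mI_univ]
  linarith

lemma prefix_ivt {W : List ℝ} {s : List ℝ → ℝ} {t : ℝ} (ht : 0 ≤ t) (h0 : s [] ≤ 6 * t)
    (hstep : ∀ P c, P ++ [c] <+: W → s (P ++ [c]) ≤ 4 * s P) :
    ∀ P, P <+: W → t ≤ s P → ∃ Q, Q <+: W ∧ t ≤ s Q ∧ s Q ≤ 6 * t := by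
  intro P
  induction P using List.reverseRecOn with
  | nil => intro h1 h2; exact ⟨[], h1, h2, h0⟩
  | append_singleton P c ih =>
    intro h1 h2
    rcases le_or_gt t (s P) with h | h
    · exact ih ((List.prefix_append _ _).trans h1) h
    · exact ⟨P ++ [c], h1, h2, by linarith [hstep P c h1]⟩

lemma hit_point {W : List ℝ} {κ lam R E : ℝ} {M : M2} (hc : ∀ c ∈ W, |c| ≤ 1) (hκ : κ ≤ 1)
    (hR : R ^ 4 ≤ lam) (hlam : 0 ≤ lam) (hE : |E| ≤ 1) (hM : M.det = 1) (hMR : 6 * nu M ≤ R)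
    (hPsi : Psi W κ lam E < 1)
    (hirr : ∀ θ : ℝ, 2 * Real.cos θ = trc (T W E) → Irrational (θ / π)) :
    ∃ j P, P <+: W ∧ nu (T (rep W j ++ P) E * M) ≤ 8 := by
  obtain ⟨ht, hx, hP⟩ := Psi_lt_one hPsi
  have hdet := det_T W E
  obtain ⟨θ, hθ, hcos⟩ := ell_exists hdet ht
  have hG1 := one_le_Gf ht
  have hy := Yf_pos hdet ht
  have hs := Sf_pos hdet ht
  have hsy := Sf_sq hdet ht
  obtain ⟨P0, hP0, hGP⟩ := exists_Gf W E
  set x := Xf (T W E) with hxdef
  set y := Yf (T W E) with hydef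
  set s := Sf (T W E) with hsdef
  set G := Gf W E with hG
  have hpos : 0 ≤ lam / G ^ 4 := by positivity
  have hy2 : 0 < y ^ 2 := by positivity
  have hy3 : 0 < (y ^ 2)⁻¹ := by positivity
  have hy1 : 1 / 4 ≤ y := quarter_le hy (by linarith)
  have hy4 : y ≤ 4 := le_four (by linarith)
  have hs1 : 1 / 2 ≤ s := by nlinarith
  have hs2 : s ≤ 2 := by nlinarith
  have hx1 : |x| ≤ 1 := hx.trans hκ
  have hCi := nu_Ci_le hx1 hs1 hs2
  have hCm := nu_Cm_le hx1 hs1 hs2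
  have hlG : lam < G ^ 4 := by
    have : lam / G ^ 4 < 1 := by linarith
    rwa [div_lt_one (by positivity)] at this
  have hRG : R ≤ G := le_of_lt (lt_of_pow_lt_pow_left₀ 4 (by linarith) (hR.trans_lt hlG))
  have hdH : (Cm x s * M).det = 1 := by rw [Matrix.det_mul, det_Cm _ hs.ne', hM, one_mul]
  have ht1 := one_le_nu hdH
  set t := nu (Cm x s * M) with htdef
  have htR : t ≤ R := by
    have h1 := nu_mul_le (Cm x s) M
    have h2 := nu_nonneg M
    nlinarith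
  obtain ⟨Q, hQ, hQ1, hQ2⟩ := prefix_ivt (W := W) (s := fun P => nu (T P E * Ci x s)) (t := t)
    (by linarith) (by simp only [T_nil, Matrix.one_mul]; linarith) (by
      intro P c hPc
      have hcm : c ∈ W := hPc.subset (by simp)
      have h1 := nu_A1_le (hc c hcm) hE
      rw [T_snoc, Matrix.mul_assoc]
      have h2 := nu_mul_le (A1 c E) (T P E * Ci x s)
      have h3 := nu_nonneg (T P E * Ci x s)
      nlinarith) P0 hP0 (by rw [← hGP]; linarith)
  have hdG : (T Q E * Ci x s).det = 1 := by rw [Matrix.det_mul, det_T, det_Ci _ hs.ne', one_mul]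
  obtain ⟨τ, hτ⟩ := nu_anti hdG hdH
  rw [← htdef] at hτ
  set g := nu (T Q E * Ci x s) with hg
  have h6 : g / t ≤ 6 := by rw [div_le_iff₀ (by linarith)]; exact hQ2
  have h7 : t / g ≤ 1 := by rw [div_le_one (by linarith)]; exact hQ1
  have hθ2 : Irrational (θ / (2 * π)) := by
    have : θ / (2 * π) = θ / π / (2 : ℕ) := by push_cast; field_simp
    rw [this]
    exact (hirr θ hcos).div_natCast (by norm_num)
  have hcont : Continuous fun a : ℝ => -nu (T Q E * Ci x s * rot a * (Cm x s * M)) :=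
    (continuous_nu.comp ((continuous_const.matrix_mul continuous_rot).matrix_mul continuous_const)).neg
  have hper : Function.Periodic (fun a : ℝ => -nu (T Q E * Ci x s * rot a * (Cm x s * M))) (2 * π) := by
    intro a; simp only; rw [rot_periodic a]
  obtain ⟨j, hj⟩ := exists_nat_lt (c := -8) (t := τ) (by positivity) hcont hper hθ2 (by linarith)
  refine ⟨j, Q, hQ, ?_⟩
  have hmat : T (rep W j ++ Q) E * M = T Q E * Ci x s * rot (j * θ) * (Cm x s * M) := by
    rw [T_append, T_rep, hθ, ← hsy, Em_pow _ _ hs.ne', Em_eq _ _ hs.ne']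
    simp only [Matrix.mul_assoc]
  rw [hmat]; linarith

lemma key_lemma (U : List ℝ) : ∃ V : List ℝ, (∀ c ∈ V, |c| ≤ 1) ∧
    ENNReal.ofReal (1 / 2) ≤ mI {E | ∃ P, P <+: V ∧ nu (T (U ++ P) E) ≤ 8} := by
  obtain ⟨R0, hR0⟩ : ∃ R0, ∀ E ∈ Set.Icc (-1 : ℝ) 1, nu (T U E) ≤ R0 := by
    obtain ⟨R0, h⟩ := (isCompact_Icc (a := (-1 : ℝ)) (b := 1)).bddAbove_image
      (continuous_nu.comp (continuous_T U)).continuousOn
    exact ⟨R0, fun E hE => h ⟨E, hE, rfl⟩⟩
  obtain ⟨W, hW, hc, lam, hR, hlam, κ, hκ, hint⟩ := big_word (6 * R0)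
  have hgood := one_le_good (measurable_Psi W κ lam) (Psi_nonneg W κ hlam) (Psi_le_one W κ lam) hint
  set S : ℕ → Set ℝ := fun J => {E | ∃ P, P <+: rep W J ∧ nu (T (U ++ P) E) ≤ 8} with hS
  have hmono : Monotone S := by
    intro a b hab E ⟨P, hP, h⟩
    exact ⟨P, hP.trans (rep_prefix W hab), h⟩
  have hsub : {E | Psi W κ lam E < 1} ≤ᵐ[mI] ⋃ J, S J := by
    have h2 : ∀ᵐ E ∂mI, ∀ θ : ℝ, 2 * Real.cos θ = trc (T W E) → Irrational (θ / π) :=
      ae_restrict_of_ae (ae_irrational hW)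
    filter_upwards [h2, ae_restrict_mem (μ := volume) (measurableSet_Icc (a := (-1 : ℝ)) (b := 1))]
      with E hE hEI hPsi
    obtain ⟨j, P, hP, h⟩ := hit_point (M := T U E) hc hκ hR hlam (abs_le.2 hEI) (det_T _ _)
      (by linarith [hR0 E hEI]) hPsi hE
    refine Set.mem_iUnion.2 ⟨j + 1, rep W j ++ P, rep_prefix' hP (Nat.lt_succ_self j), ?_⟩
    rw [T_append]; exact h
  have h1 : ENNReal.ofReal (1 / 2) < mI (⋃ J, S J) := by
    refine lt_of_lt_of_le ?_ (measure_mono_ae hsub)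
    rw [ENNReal.ofReal_lt_iff_lt_toReal (by norm_num) (measure_ne_top _ _)]
    have : (mI {E | Psi W κ lam E < 1}).toReal = mI.real {E | Psi W κ lam E < 1} := rfl
    rw [this]; linarith
  rw [hmono.measure_iUnion, lt_iSup_iff] at h1
  obtain ⟨J, hJ⟩ := h1
  exact ⟨rep W J, fun c h => hc c (mem_rep h), hJ.le⟩

end Pool.Agent.H359Z.TM
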