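import Mathlib

set_option autoImplicit false

namespace Pool.Agent.H359Z.TM

open Complex

/-- real two by two matrices -/
abbrev M2 : Type := Matrix (Fin 2) (Fin 2) ℝ

/-- complex-linear part of a real matrix acting on the plane -/
noncomputable def al (M : M2) : ℂ := ⟨(M 0 0 + M 1 1) / 2, (M 1 0 - M 0 1) / 2⟩

/-- complex-antilinear part of a real matrix acting on the plane -/
noncomputable def be (M : M2) : ℂ := ⟨(M 0 0 - M 1 1) / 2, (M 1 0 + M 0 1) / 2⟩

/-- the operator norm -/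
noncomputable def nu (M : M2) : ℝ := ‖al M‖ + ‖be M‖

lemma al_mul (M N : M2) : al (M * N) = al M * al N + be M * (starRingEnd ℂ) (be N) := by
  apply Complex.ext <;> simp [al, be, Matrix.mul_apply, Fin.sum_univ_two] <;> ring

lemma be_mul (M N : M2) : be (M * N) = al M * be N + be M * (starRingEnd ℂ) (al N) := by
  apply Complex.ext <;> simp [al, be, Matrix.mul_apply, Fin.sum_univ_two] <;> ring

lemma nu_nonneg (M : M2) : 0 ≤ nu M := by unfold nu; positivity

lemma nu_mul_le (M N : M2) : nu (M * N) ≤ nu M * nu N := by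
  unfold nu
  rw [al_mul, be_mul]
  have h1 := norm_add_le (al M * al N) (be M * (starRingEnd ℂ) (be N))
  have h2 := norm_add_le (al M * be N) (be M * (starRingEnd ℂ) (al N))
  simp only [norm_mul, RCLike.norm_conj] at h1 h2
  nlinarith

lemma normsq_sub (M : M2) : ‖al M‖ ^ 2 - ‖be M‖ ^ 2 = M.det := by
  rw [Complex.sq_norm, Complex.sq_norm, Matrix.det_fin_two]
  simp [al, be, Complex.normSq_apply]
  ring

lemma entry_le_nu (M : M2) (i j : Fin 2) : |M i j| ≤ nu M := by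
  unfold nu
  have a1 : |(M 0 0 + M 1 1) / 2| ≤ ‖al M‖ := Complex.abs_re_le_norm (al M)
  have a2 : |(M 1 0 - M 0 1) / 2| ≤ ‖al M‖ := Complex.abs_im_le_norm (al M)
  have b1 : |(M 0 0 - M 1 1) / 2| ≤ ‖be M‖ := Complex.abs_re_le_norm (be M)
  have b2 : |(M 1 0 + M 0 1) / 2| ≤ ‖be M‖ := Complex.abs_im_le_norm (be M)
  rw [abs_le] at a1 a2 b1 b2
  rw [abs_le]
  fin_cases i <;> fin_cases j <;> simp <;> constructor <;> linarith [a1.1, a1.2, a2.1, a2.2, b1.1, b1.2, b2.1, b2.2]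

lemma nu_le_sum (M : M2) : nu M ≤ |M 0 0| + |M 0 1| + |M 1 0| + |M 1 1| := by
  unfold nu
  have a1 := Complex.norm_le_abs_re_add_abs_im (al M)
  have b1 := Complex.norm_le_abs_re_add_abs_im (be M)
  simp only [al, be] at a1 b1
  have h1 : |(M 0 0 + M 1 1) / 2| ≤ (|M 0 0| + |M 1 1|) / 2 := by
    rw [abs_div, abs_two]; gcongr; exact abs_add_le _ _
  have h2 : |(M 1 0 - M 0 1) / 2| ≤ (|M 1 0| + |M 0 1|) / 2 := by
    rw [abs_div, abs_two]; gcongr; exact abs_sub _ _
  have h3 : |(M 0 0 - M 1 1) / 2| ≤ (|M 0 0| + |M 1 1|) / 2 := by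
    rw [abs_div, abs_two]; gcongr; exact abs_sub _ _
  have h4 : |(M 1 0 + M 0 1) / 2| ≤ (|M 1 0| + |M 0 1|) / 2 := by
    rw [abs_div, abs_two]; gcongr; exact abs_add_le _ _
  simp only [al, be]
  linarith

lemma be_le_al {M : M2} (h : M.det = 1) : ‖be M‖ ≤ ‖al M‖ := by
  have := normsq_sub M
  rw [h] at this
  have h1 := norm_nonneg (al M)
  have h2 := norm_nonneg (be M)
  nlinarith

lemma one_le_nu {M : M2} (h : M.det = 1) : 1 ≤ nu M := by
  have := normsq_sub M
  rw [h] at this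
  have h1 := norm_nonneg (al M)
  have h2 := norm_nonneg (be M)
  unfold nu
  nlinarith

lemma norm_al_eq {M : M2} (h : M.det = 1) : ‖al M‖ = (nu M + (nu M)⁻¹) / 2 := by
  have h0 := one_le_nu h
  have := normsq_sub M
  rw [h] at this
  have h3 : (nu M)⁻¹ = ‖al M‖ - ‖be M‖ := by
    apply inv_eq_of_mul_eq_one_right
    unfold nu
    linarith
  rw [h3]; unfold nu; ring

lemma norm_be_eq {M : M2} (h : M.det = 1) : ‖be M‖ = (nu M - (nu M)⁻¹) / 2 := by
  have := norm_al_eq h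
  unfold nu at *
  linarith

/-- rotation matrix -/
noncomputable def rot (θ : ℝ) : M2 := !![Real.cos θ, -Real.sin θ; Real.sin θ, Real.cos θ]

lemma det_rot (θ : ℝ) : (rot θ).det = 1 := by
  rw [rot, Matrix.det_fin_two_of]
  nlinarith [Real.sin_sq_add_cos_sq θ]

lemma al_rot (θ : ℝ) : al (rot θ) = Complex.exp (θ * I) := by
  apply Complex.ext
  · simp [al, rot, Complex.exp_ofReal_mul_I_re]
  · simp [al, rot, Complex.exp_ofReal_mul_I_im]

lemma be_rot (θ : ℝ) : be (rot θ) = 0 := by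
  apply Complex.ext <;> simp [be, rot]

lemma al_rot_mul (G H : M2) (θ : ℝ) : al (G * rot θ * H) =
    (al G * al H) * Complex.exp (θ * I) + (be G * (starRingEnd ℂ) (be H)) * Complex.exp (-(θ * I)) := by
  rw [al_mul, al_mul, be_mul, al_rot, be_rot]
  have : (starRingEnd ℂ) (Complex.exp (θ * I)) = Complex.exp (-(θ * I)) := by
    rw [← Complex.exp_conj]; simp
  rw [this]
  simp
  ring

lemma phase_add (p q : ℂ) : ∃ θ : ℝ,
    ‖p * Complex.exp (θ * I) + q * Complex.exp (-(θ * I))‖ = ‖p‖ + ‖q‖ := by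
  refine ⟨(q.arg - p.arg) / 2, ?_⟩
  have hp := Complex.norm_mul_exp_arg_mul_I p
  have hq := Complex.norm_mul_exp_arg_mul_I q
  have e1 : p * Complex.exp (((q.arg - p.arg) / 2 : ℝ) * I)
      = ‖p‖ * Complex.exp (((q.arg + p.arg) / 2 : ℝ) * I) := by
    conv_lhs => rw [← hp]
    rw [mul_assoc, ← Complex.exp_add]
    congr 2
    push_cast
    rw [hp]
    ring
  have e2 : q * Complex.exp (-(((q.arg - p.arg) / 2 : ℝ) * I))
      = ‖q‖ * Complex.exp (((q.arg + p.arg) / 2 : ℝ) * I) := by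
    conv_lhs => rw [← hq]
    rw [mul_assoc, ← Complex.exp_add]
    congr 2
    push_cast
    rw [hq]
    ring
  rw [e1, e2, ← add_mul, norm_mul, Complex.norm_exp_ofReal_mul_I, mul_one]
  rw [← Complex.ofReal_add, Complex.norm_real, Real.norm_eq_abs, abs_of_nonneg (by positivity)]

lemma phase_sub (p q : ℂ) : ∃ θ : ℝ,
    ‖p * Complex.exp (θ * I) + q * Complex.exp (-(θ * I))‖ = |‖p‖ - ‖q‖| := by
  refine ⟨(q.arg - p.arg + Real.pi) / 2, ?_⟩
  have hp := Complex.norm_mul_exp_arg_mul_I p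
  have hq := Complex.norm_mul_exp_arg_mul_I q
  have e1 : p * Complex.exp (((q.arg - p.arg + Real.pi) / 2 : ℝ) * I)
      = ‖p‖ * Complex.exp (((q.arg + p.arg + Real.pi) / 2 : ℝ) * I) := by
    conv_lhs => rw [← hp]
    rw [mul_assoc, ← Complex.exp_add]
    congr 2
    push_cast
    rw [hp]
    ring
  have e2 : q * Complex.exp (-(((q.arg - p.arg + Real.pi) / 2 : ℝ) * I))
      = -‖q‖ * Complex.exp (((q.arg + p.arg + Real.pi) / 2 : ℝ) * I) := by
    conv_lhs => rw [← hq]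
    have : (-‖q‖ : ℂ) = ‖q‖ * Complex.exp (-(Real.pi * I)) := by
      rw [Complex.exp_neg, Complex.exp_pi_mul_I]; simp
    rw [this, mul_assoc, mul_assoc, ← Complex.exp_add, ← Complex.exp_add]
    congr 2
    push_cast
    rw [hq]
    ring
  rw [e1, e2, ← add_mul, norm_mul, Complex.norm_exp_ofReal_mul_I, mul_one]
  have : ((‖p‖ : ℂ) + -‖q‖) = ((‖p‖ - ‖q‖ : ℝ) : ℂ) := by push_cast; ring
  rw [this, Complex.norm_real, Real.norm_eq_abs]

lemma nu_align {G H : M2} (hG : G.det = 1) (hH : H.det = 1) :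
    ∃ θ : ℝ, nu (G * rot θ * H) = nu G * nu H := by
  obtain ⟨θ, hθ⟩ := phase_add (al G * al H) (be G * (starRingEnd ℂ) (be H))
  refine ⟨θ, ?_⟩
  rw [← al_rot_mul] at hθ
  simp only [norm_mul, RCLike.norm_conj] at hθ
  have hd : (G * rot θ * H).det = 1 := by rw [Matrix.det_mul, Matrix.det_mul, hG, hH, det_rot]; ring
  have h1 := normsq_sub (G * rot θ * H)
  have h2 := normsq_sub G
  have h3 := normsq_sub H
  rw [hd] at h1; rw [hG] at h2; rw [hH] at h3
  have h4 : ‖be (G * rot θ * H)‖ = ‖al G‖ * ‖be H‖ + ‖be G‖ * ‖al H‖ := by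
    have h5 : ‖be (G * rot θ * H)‖ ^ 2 = (‖al G‖ * ‖be H‖ + ‖be G‖ * ‖al H‖) ^ 2 := by
      rw [hθ] at h1
      have : (‖al G‖ ^ 2 - ‖be G‖ ^ 2) * (‖al H‖ ^ 2 - ‖be H‖ ^ 2) = 1 := by rw [h2, h3]; ring
      nlinarith
    exact (pow_left_inj₀ (norm_nonneg _) (by positivity) two_ne_zero).1 h5
  unfold nu
  rw [hθ, h4]; ring

lemma nu_anti {G H : M2} (hG : G.det = 1) (hH : H.det = 1) :
    ∃ θ : ℝ, nu (G * rot θ * H) ≤ nu G / nu H + nu H / nu G := by
  obtain ⟨θ, hθ⟩ := phase_sub (al G * al H) (be G * (starRingEnd ℂ) (be H))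
  refine ⟨θ, ?_⟩
  rw [← al_rot_mul] at hθ
  simp only [norm_mul, RCLike.norm_conj] at hθ
  have hd : (G * rot θ * H).det = 1 := by rw [Matrix.det_mul, Matrix.det_mul, hG, hH, det_rot]; ring
  have h1 := be_le_al hd
  have g1 := one_le_nu hG
  have g2 := one_le_nu hH
  have h2 : ‖al G‖ * ‖al H‖ - ‖be G‖ * ‖be H‖ = (nu G / nu H + nu H / nu G) / 2 := by
    rw [norm_al_eq hG, norm_al_eq hH, norm_be_eq hG, norm_be_eq hH]
    field_simp
    ring
  rw [h2, abs_of_nonneg (by positivity)] at hθ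
  have : nu (G * rot θ * H) ≤ 2 * ‖al (G * rot θ * H)‖ := by unfold nu; linarith
  linarith

lemma continuous_nu : Continuous nu := by
  unfold nu
  have h1 : Continuous al := by
    have : al = fun M : M2 => (((M 0 0 + M 1 1) / 2 : ℝ) : ℂ) + (((M 1 0 - M 0 1) / 2 : ℝ) : ℂ) * I := by
      funext M; apply Complex.ext <;> simp [al]
    rw [this]; fun_prop
  have h2 : Continuous be := by
    have : be = fun M : M2 => (((M 0 0 - M 1 1) / 2 : ℝ) : ℂ) + (((M 1 0 + M 0 1) / 2 : ℝ) : ℂ) * I := by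
      funext M; apply Complex.ext <;> simp [be]
    rw [this]; fun_prop
  fun_prop

lemma continuous_rot : Continuous rot := by
  unfold rot
  refine continuous_matrix fun i j => ?_
  fin_cases i <;> fin_cases j <;> simp <;> fun_prop

lemma rot_periodic : Function.Periodic rot (2 * Real.pi) := by
  intro θ
  simp [rot]

lemma rot_add (a b : ℝ) : rot (a + b) = rot a * rot b := by
  ext i j
  fin_cases i <;> fin_cases j <;>
    simp [rot, Matrix.mul_apply, Fin.sum_univ_two, Real.cos_add, Real.sin_add] <;> ring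

lemma rot_zero : rot 0 = 1 := by
  ext i j
  fin_cases i <;> fin_cases j <;> simp [rot]

lemma nu_upper (p q : ℝ) (hp : 0 < p) : max p p⁻¹ ≤ nu !![p, q; 0, p⁻¹] := by
  have h1 := entry_le_nu !![p, q; 0, p⁻¹] 0 0
  have h2 := entry_le_nu !![p, q; 0, p⁻¹] 1 1
  simp at h1 h2
  rw [abs_of_pos hp] at h1 h2
  exact max_le h1 h2

end Pool.Agent.H359Z.TM
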