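import Pool.Agent.H359Z.TM.Build

set_option autoImplicit false

namespace Pool.Agent.H359Z.TM

open MeasureTheory Filter Topology Polynomial

/-- the Schroedinger operator acting on all real sequences -/
def Jop (b : ℕ → ℝ) : Module.End ℝ (ℕ → ℝ) where
  toFun u n := u (n + 1) + b n * u n + if n = 0 then 0 else u (n - 1)
  map_add' u v := by
    funext n; simp only [Pi.add_apply]; split_ifs <;> ring
  map_smul' c u := by
    funext n; simp only [Pi.smul_apply, smul_eq_mul, RingHom.id_apply]; split_ifs <;> ring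

lemma Jop_apply (b u : ℕ → ℝ) (n : ℕ) :
    Jop b u n = u (n + 1) + b n * u n + if n = 0 then 0 else u (n - 1) := rfl

/-- unit vectors -/
def dl (n : ℕ) : ℕ → ℝ := fun i => if i = n then 1 else 0

lemma Jop_dl_zero (b : ℕ → ℝ) : Jop b (dl 0) = dl 1 + b 0 • dl 0 := by
  funext i
  rcases i with _ | _ | i <;> simp [Jop_apply, dl]

lemma Jop_dl_succ (b : ℕ → ℝ) (n : ℕ) :
    Jop b (dl (n + 1)) = dl (n + 2) + b (n + 1) • dl (n + 1) + dl n := by
  funext i
  simp only [Jop_apply, dl, Pi.add_apply, Pi.smul_apply, smul_eq_mul]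
  rcases i with _ | i
  · simp [eq_comm]
  · simp only [Nat.add_right_cancel_iff, Nat.add_eq_zero_iff, one_ne_zero, and_false, if_false,
      Nat.add_sub_cancel]
    by_cases h : i = n
    · subst h; simp
    · simp only [h, if_false]; ring

/-- orthonormal polynomials -/
noncomputable def PP (b : ℕ → ℝ) : ℕ → ℝ[X]
  | 0 => 1
  | 1 => X - C (b 0)
  | n + 2 => (X - C (b (n + 1))) * PP b (n + 1) - PP b n

lemma TT_succ (b : ℕ → ℝ) (n : ℕ) (E : ℝ) :
    TT b (n + 1) E = T ((List.range n).map b ++ [b n]) E := by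
  rw [TT, List.range_succ, List.map_append]; rfl

lemma TT_eval (b : ℕ → ℝ) (E : ℝ) (n : ℕ) :
    TT b n E 0 0 = (PP b n).eval E ∧ TT b (n + 1) E 0 0 = (PP b (n + 1)).eval E := by
  induction n with
  | zero => simp [TT, PP, T_single, A1]
  | succ n ih =>
    refine ⟨ih.2, ?_⟩
    rw [TT_succ, T_snoc_00]
    have h1 : T ((List.range (n + 1)).map b) E 1 0 = TT b n E 0 0 := by
      rw [List.range_succ, List.map_append]
      exact T_snoc_10 _ _ _
    rw [h1, ih.1]
    have h2 : T ((List.range (n + 1)).map b) E 0 0 = (PP b (n + 1)).eval E := ih.2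
    rw [h2]
    simp [PP]

lemma aeval_PP_dl (b : ℕ → ℝ) (n : ℕ) :
    aeval (Jop b) (PP b n) (dl 0) = dl n ∧ aeval (Jop b) (PP b (n + 1)) (dl 0) = dl (n + 1) := by
  induction n with
  | zero =>
    simp [PP, Jop_dl_zero]
  | succ n ih =>
    refine ⟨ih.2, ?_⟩
    rw [PP, map_sub, map_mul, LinearMap.sub_apply, Module.End.mul_apply, ih.1, ih.2]
    simp [Jop_dl_succ]
    abel

lemma aeval_PP_dl' (b : ℕ → ℝ) (m : ℕ) :
    (∀ n, aeval (Jop b) (PP b m) (dl n) 0 = if m = n then 1 else 0) ∧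
    (∀ n, aeval (Jop b) (PP b (m + 1)) (dl n) 0 = if m + 1 = n then 1 else 0) := by
  induction m with
  | zero =>
    refine ⟨fun n => by simp [PP, dl], fun n => ?_⟩
    simp [PP, Jop_apply, dl]
  | succ m ih =>
    refine ⟨ih.2, fun n => ?_⟩
    rw [PP, mul_comm, map_sub, map_mul, LinearMap.sub_apply, Module.End.mul_apply, Pi.sub_apply, ih.1]
    have h1 : aeval (Jop b) (X - C (b (m + 1))) (dl n) = Jop b (dl n) - b (m + 1) • dl n := by simp
    rw [h1]
    rcases n with _ | n
    · rw [Jop_dl_zero]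
      simp only [map_sub, map_add, map_smul, Pi.sub_apply, Pi.add_apply, Pi.smul_apply, ih.2]
      simp
    · rw [Jop_dl_succ]
      simp only [map_sub, map_add, map_smul, Pi.sub_apply, Pi.add_apply, Pi.smul_apply, ih.2,
        smul_eq_mul]
      have e : (m + 1 = n + 2) ↔ (m = n + 1) := by omega
      have e2 : (m + 1 + 1 = n + 1) ↔ (m + 1 = n) := by omega
      have e3 : (m + 1 = n + 1) ↔ (m = n) := by omega
      simp only [e, e2, e3]
      by_cases h : m = n
      · subst h; simp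
      · simp [h]

lemma integral_poly {b : ℕ → ℝ} {μ : Measure ℝ} (hi : ∀ k : ℕ, Integrable (fun x : ℝ => x ^ k) μ)
    (hm : ∀ k : ℕ, ∫ x, x ^ k ∂μ = (Jop b ^ k) (dl 0) 0) (q : ℝ[X]) :
    Integrable (fun x => q.eval x) μ ∧ ∫ x, q.eval x ∂μ = aeval (Jop b) q (dl 0) 0 := by
  induction q using Polynomial.induction_on' with
  | add p q hp hq =>
    simp only [eval_add, map_add, LinearMap.add_apply, Pi.add_apply]
    exact ⟨hp.1.add hq.1, by rw [integral_add hp.1 hq.1, hp.2, hq.2]⟩
  | monomial n a =>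
    simp only [eval_monomial, aeval_monomial]
    refine ⟨(hi n).const_mul a, ?_⟩
    rw [integral_const_mul, hm]
    simp

lemma measure_zero_of_growth {b : ℕ → ℝ} {μ : Measure ℝ}
    (hi : ∀ k : ℕ, Integrable (fun x : ℝ => x ^ k) μ)
    (hm : ∀ k : ℕ, ∫ x, x ^ k ∂μ = (Jop b ^ k) (dl 0) 0) {Z : Set ℝ} {m : ℕ → ℕ}
    (h : ∀ k, ∀ E ∈ Z, 2 ^ k ≤ |TT b (m k) E 0 0|) : μ Z = 0 := by
  have hfin : IsFiniteMeasure μ := by
    have := hi 0
    simp only [pow_zero] at this
    exact (integrable_const_iff_isFiniteMeasure one_ne_zero).1 this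
  have h1 : ∀ k : ℕ, μ.real Z ≤ (1 / 2) ^ k := by
    intro k
    obtain ⟨a1, a2⟩ := integral_poly hi hm (PP b (m k) * PP b (m k))
    rw [map_mul, Module.End.mul_apply, (aeval_PP_dl b (m k)).1, (aeval_PP_dl' b (m k)).1,
      if_pos rfl] at a2
    have h2 := mul_meas_ge_le_integral_of_nonneg (μ := μ)
      (Eventually.of_forall fun x => by
        show (0 : ℝ) ≤ eval x (PP b (m k) * PP b (m k))
        rw [eval_mul]; exact mul_self_nonneg _) a1 (2 ^ k)
    rw [a2] at h2
    have h3 : μ.real Z ≤ μ.real {x | (2 : ℝ) ^ k ≤ eval x (PP b (m k) * PP b (m k))} := by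
      apply measureReal_mono _ (measure_ne_top _ _)
      intro E hE
      have h4 := h k E hE
      rw [(TT_eval b E (m k)).1] at h4
      have h5 : (1 : ℝ) ≤ 2 ^ k := one_le_pow₀ one_le_two
      show (2 : ℝ) ^ k ≤ eval E (PP b (m k) * PP b (m k))
      rw [eval_mul, ← abs_mul_abs_self]
      nlinarith
    have h6 : (0 : ℝ) < 2 ^ k := by positivity
    rw [one_div, inv_pow, ← one_div, le_div_iff₀ h6]
    nlinarith
  have h2 := ge_of_tendsto' (tendsto_pow_atTop_nhds_zero_of_lt_one (r := (1 / 2 : ℝ)) (by norm_num)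
    (by norm_num)) h1
  have h3 : μ.real Z = 0 := le_antisymm h2 measureReal_nonneg
  exact (measureReal_eq_zero_iff (measure_ne_top _ _)).1 h3

/-- finite truncation -/
def Jn (b : ℕ → ℝ) (m : ℕ) : Matrix (Fin (m + 1)) (Fin (m + 1)) ℝ :=
  Matrix.of fun i j => if i.val = j.val then b i.val else if j.val = i.val + 1 then 1
    else if i.val = j.val + 1 then 1 else 0

lemma Jn_sum (b : ℕ → ℝ) (m : ℕ) {u : ℕ → ℝ} (hu : u (m + 1) = 0) (i : Fin (m + 1)) :
    ∑ j, Jn b m i j * u j = Jop b u i := by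
  have h1 : ∀ j : Fin (m + 1), Jn b m i j * u j = (fun j : ℕ => (if i.val = j then b i.val * u j else 0)
      + (if i.val + 1 = j then u j else 0) + (if i.val = 0 then 0 else if i.val - 1 = j then u j else 0))
      j.val := by
    intro j
    simp only [Jn, Matrix.of_apply]
    split_ifs <;> first | omega | ring
  simp_rw [h1]
  rw [Fin.sum_univ_eq_sum_range (fun j : ℕ => (if i.val = j then b i.val * u j else 0)
      + (if i.val + 1 = j then u j else 0) + (if i.val = 0 then 0 else if i.val - 1 = j then u j else 0))]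
  rw [Finset.sum_add_distrib, Finset.sum_add_distrib, Finset.sum_ite_eq, Finset.sum_ite_eq, Jop_apply]
  have hi := i.2
  rw [if_pos (Finset.mem_range.2 hi)]
  have h2 : (if i.val + 1 ∈ Finset.range (m + 1) then u (i.val + 1) else 0) = u (i.val + 1) := by
    split_ifs with h
    · rfl
    · have : i.val + 1 = m + 1 := by simp at h; omega
      rw [this, hu]
  rw [h2]
  by_cases h0 : i.val = 0
  · simp [h0]; ring
  · simp only [h0, if_false]
    rw [Finset.sum_ite_eq, if_pos (Finset.mem_range.2 (by omega))]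
    ring

lemma pow_dl_support (b : ℕ → ℝ) (k : ℕ) : ∀ i, k < i → (Jop b ^ k) (dl 0) i = 0 := by
  induction k with
  | zero => intro i hi; simp [dl]; omega
  | succ k ih =>
    intro i hi
    rw [pow_succ', Module.End.mul_apply, Jop_apply, ih _ (by omega), ih _ (by omega), ih _ (by omega)]
    simp

lemma Jn_pow (b : ℕ → ℝ) (m : ℕ) (k : ℕ) (hk : k ≤ m + 1) (i : Fin (m + 1)) :
    (Jn b m ^ k) i 0 = (Jop b ^ k) (dl 0) i := by
  induction k generalizing i with
  | zero =>
    simp only [pow_zero, Matrix.one_apply, Module.End.one_apply, dl, Fin.ext_iff]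
    rfl
  | succ k ih =>
    rw [pow_succ', pow_succ', Matrix.mul_apply, Module.End.mul_apply,
      ← Jn_sum b m (pow_dl_support b k _ (by omega))]
    exact Finset.sum_congr rfl fun j _ => by rw [ih (by omega)]

lemma Jn_herm (b : ℕ → ℝ) (m : ℕ) : (Jn b m).IsHermitian := by
  ext i j
  simp only [Jn, Matrix.conjTranspose_apply, Matrix.of_apply, star_trivial]
  split_ifs <;> first | omega | rfl | (congr 1)

lemma eig_bound {b : ℕ → ℝ} (hb : ∀ n, |b n| ≤ 11) (m : ℕ) (j : Fin (m + 1)) :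
    |(Jn_herm b m).eigenvalues j| ≤ 13 := by
  set v : Fin (m + 1) → ℝ := ⇑((Jn_herm b m).eigenvectorBasis j) with hv
  have h1 : (Jn b m).mulVec v = (Jn_herm b m).eigenvalues j • v := (Jn_herm b m).mulVec_eigenvectorBasis j
  set l := (Jn_herm b m).eigenvalues j
  obtain ⟨i, -, hi⟩ := Finset.exists_max_image Finset.univ (fun i => |v i|) Finset.univ_nonempty
  have hpos : 0 < |v i| := by
    by_contra h
    have h0 : ∀ i', v i' = 0 := fun i' =>
      abs_nonpos_iff.1 ((hi i' (Finset.mem_univ _)).trans (not_lt.1 h))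
    apply (Jn_herm b m).eigenvectorBasis.orthonormal.ne_zero j
    ext i'
    exact h0 i'
  set u : ℕ → ℝ := fun n => if h : n < m + 1 then v ⟨n, h⟩ else 0 with hu
  have hub : ∀ n, |u n| ≤ |v i| := by
    intro n
    simp only [hu]
    split_ifs
    · exact hi _ (Finset.mem_univ _)
    · simp
  have huv : ∀ j : Fin (m + 1), u j = v j := fun j => by simp only [hu]; rw [dif_pos j.2]
  have h2 := Jn_sum b m (u := u) (by simp [hu]) i
  simp_rw [huv] at h2
  have h3 : l * v i = Jop b u i := by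
    rw [← h2]
    have := congrFun h1 i
    simp only [Matrix.mulVec, dotProduct, Pi.smul_apply, smul_eq_mul] at this
    exact this.symm
  have h4 : |Jop b u i| ≤ 13 * |v i| := by
    rw [Jop_apply]
    have a1 := hub (i + 1)
    have a2 : |b i * u i| ≤ 11 * |v i| := by
      rw [abs_mul]; exact mul_le_mul (hb _) (hub _) (abs_nonneg _) (by norm_num)
    have a3 : |if i.val = 0 then 0 else u (i - 1)| ≤ |v i| := by
      split_ifs
      · simp
      · exact hub _
    have a4 := abs_add_three (u (i + 1)) (b i * u i) (if i.val = 0 then 0 else u (i - 1))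
    linarith
  rw [← h3, abs_mul] at h4
  exact le_of_mul_le_mul_right h4 hpos

lemma Jn_pow_eig (b : ℕ → ℝ) (m k : ℕ) : (Jn b m ^ k) 0 0 =
    ∑ j, ((Jn_herm b m).eigenvectorUnitary : Matrix (Fin (m + 1)) (Fin (m + 1)) ℝ) 0 j ^ 2 * (Jn_herm b m).eigenvalues j ^ k := by
  conv_lhs => rw [(Jn_herm b m).spectral_theorem, ← map_pow, Unitary.conjStarAlgAut_apply,
    Matrix.diagonal_pow]
  rw [Matrix.mul_apply]
  refine Finset.sum_congr rfl fun j _ => ?_
  rw [Matrix.mul_diagonal]
  simp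
  ring

theorem exists_spectral {b : ℕ → ℝ} (hb : ∀ n, |b n| ≤ 11) : ∃ μ : Measure ℝ,
    (∀ k : ℕ, Integrable (fun x : ℝ => x ^ k) μ) ∧ ∀ k : ℕ, ∫ x, x ^ k ∂μ = (Jop b ^ k) (dl 0) 0 := by
  let K := Set.Icc (-13 : ℝ) 13
  let w : ∀ m : ℕ, Fin (m + 1) → ℝ := fun m j =>
    ((Jn_herm b m).eigenvectorUnitary : Matrix (Fin (m + 1)) (Fin (m + 1)) ℝ) 0 j ^ 2
  let e : ∀ m : ℕ, Fin (m + 1) → K := fun m j =>
    ⟨(Jn_herm b m).eigenvalues j, abs_le.1 (eig_bound hb m j)⟩
  let ν : ℕ → Measure K := fun m => ∑ j, ENNReal.ofReal (w m j) • Measure.dirac (e m j)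
  have hw0 : ∀ m j, 0 ≤ w m j := fun m j => sq_nonneg _
  have hint : ∀ m (f : K → ℝ), Continuous f → ∫ x, f x ∂(ν m) = ∑ j, w m j * f (e m j) := by
    intro m f hf
    simp only [ν]
    rw [integral_finsetSum_measure]
    · refine Finset.sum_congr rfl fun j _ => ?_
      rw [integral_smul_measure, integral_dirac, ENNReal.toReal_ofReal (hw0 m j), smul_eq_mul]
    · intro j _
      exact (integrable_dirac (by simp)).smul_measure ENNReal.ofReal_ne_top
  have hmom : ∀ m k, k ≤ m + 1 → ∫ x : K, (x : ℝ) ^ k ∂(ν m) = (Jop b ^ k) (dl 0) 0 := by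
    intro m k hk
    rw [hint m _ (by fun_prop), ← Jn_pow_eig, Jn_pow b m k hk]
    rfl
  have hprob : ∀ m, IsProbabilityMeasure (ν m) := by
    intro m
    constructor
    simp only [ν]
    rw [Measure.finsetSum_apply]
    simp only [Measure.smul_apply, measure_univ, smul_eq_mul, mul_one]
    rw [← ENNReal.ofReal_sum_of_nonneg fun j _ => hw0 m j]
    have := Jn_pow_eig b m 0
    simp only [pow_zero, mul_one, Matrix.one_apply_eq] at this
    simp only [w]
    rw [← this]; simp
  let P : ℕ → ProbabilityMeasure K := fun m => ⟨ν m, hprob m⟩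
  obtain ⟨Q, hQ⟩ := exists_clusterPt_of_compactSpace (map P atTop)
  have hQm : ∀ k : ℕ, ∫ x : K, (x : ℝ) ^ k ∂(Q : Measure K) = (Jop b ^ k) (dl 0) 0 := by
    intro k
    let f : C(K, ℝ) := ⟨fun x => (x : ℝ) ^ k, by fun_prop⟩
    have hc := ProbabilityMeasure.continuous_integral_continuousMap f
    have hcl : IsClosed {R : ProbabilityMeasure K | ∫ x, f x ∂(R : Measure K) = (Jop b ^ k) (dl 0) 0} :=
      isClosed_eq hc continuous_const
    have := hcl.mem_of_mapClusterPt (show MapClusterPt Q atTop P from hQ) (by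
      filter_upwards [eventually_ge_atTop k] with m hm
      exact hmom m k (by omega))
    exact this
  refine ⟨(Q : Measure K).map Subtype.val, fun k => ?_, fun k => ?_⟩
  · rw [integrable_map_measure (by fun_prop) (by fun_prop)]
    exact Continuous.integrable_of_hasCompactSupport (by fun_prop) (HasCompactSupport.of_compactSpace _)
  · rw [integral_map (by fun_prop) (by fun_prop)]
    exact hQm k

theorem main : ∃ b : ℕ → ℝ, (∀ n, |b n| ≤ 11) ∧ ∀ μ : Measure ℝ,
    (∀ k : ℕ, Integrable (fun x : ℝ => x ^ k) μ) → (∀ k : ℕ, ∫ x, x ^ k ∂μ = (Jop b ^ k) (dl 0) 0) →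
    volume ({E | ∀ N, ∃ n, N ≤ n ∧ ∀ i j, |TT b n E i j| ≤ 8} \ {E | 0 < μ.rnDeriv volume E}) ≠ 0 := by
  obtain ⟨b, hb, Z, hZm, hZ0, hZ1, m, hZ2⟩ := dynamics
  refine ⟨b, hb, fun μ hi hm h0 => hZ0 ?_⟩
  have h1 := measure_zero_of_growth hi hm hZ2
  have h2 : ∫⁻ x in Z, μ.rnDeriv volume x = 0 :=
    le_antisymm ((Measure.setLIntegral_rnDeriv_le Z).trans h1.le) (by simp)
  rw [lintegral_eq_zero_iff (Measure.measurable_rnDeriv _ _), Filter.EventuallyEq,
    ae_restrict_iff' hZm, ae_iff] at h2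
  refine measure_mono_null (fun E hE => ?_) (measure_union_null h0 h2)
  by_cases h : 0 < μ.rnDeriv volume E
  · right
    simp only [Set.mem_ofPred_eq, Pi.zero_apply]
    intro h3
    exact h.ne' (h3 hE)
  · left
    exact ⟨hZ1 E hE, h⟩

end Pool.Agent.H359Z.TM
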