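import Pool.Agent.H359Z.TM.Words
import Pool.Agent.H359Z.TM.Avg

set_option autoImplicit false

namespace Pool.Agent.H359Z.TM

open MeasureTheory Filter Topology Real

lemma al_sub (M N : M2) : al (M - N) = al M - al N := by
  apply Complex.ext <;> simp [al] <;> ring

lemma be_sub (M N : M2) : be (M - N) = be M - be N := by
  apply Complex.ext <;> simp [be] <;> ring

lemma nu_le_add (M N : M2) : nu M ≤ nu N + nu (M - N) := by
  unfold nu
  rw [al_sub, be_sub]
  have h1 := norm_le_insert' (al M) (al N)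
  have h2 := norm_le_insert' (be M) (be N)
  linarith

lemma nu_rot_sub (a b : ℝ) :
    nu (rot a - rot b) = ‖Complex.exp (a * Complex.I) - Complex.exp (b * Complex.I)‖ := by
  unfold nu
  rw [al_sub, be_sub, al_rot, al_rot, be_rot, be_rot]; simp

lemma uniform_dense {θ δ : ℝ} (hθ : Irrational (θ / π)) (hδ : 0 < δ) :
    ∃ L0 : ℕ, ∀ t : ℝ, ∃ j < L0,
      ‖Complex.exp (t * Complex.I) - Complex.exp ((j * θ : ℝ) * Complex.I)‖ < δ := by
  have h2π : 0 < 2 * π := by positivity
  have hθ2 : Irrational (θ / (2 * π)) := by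
    have : θ / (2 * π) = θ / π / (2 : ℕ) := by push_cast; field_simp
    rw [this]
    exact hθ.div_natCast (by norm_num)
  set U : ℕ → Set ℝ := fun j =>
    {t | ‖Complex.exp (t * Complex.I) - Complex.exp ((j * θ : ℝ) * Complex.I)‖ < δ} with hU
  have hUo : ∀ j, IsOpen (U j) := fun j => isOpen_lt (by fun_prop) continuous_const
  have hcov : Set.Icc 0 (2 * π) ⊆ ⋃ j, U j := by
    intro t _
    have hper : Function.Periodic
        (fun s : ℝ => -‖Complex.exp (t * Complex.I) - Complex.exp (s * Complex.I)‖) (2 * π) := by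
      intro s
      simp only
      congr 3
      push_cast
      rw [add_mul, Complex.exp_add, Complex.exp_two_pi_mul_I, mul_one]
    obtain ⟨j, hj⟩ := exists_nat_lt (c := -δ) (t := t) h2π (by fun_prop) hper hθ2 (by simpa using hδ)
    exact Set.mem_iUnion.2 ⟨j, by simp only [hU, Set.mem_ofPred_eq]; linarith⟩
  obtain ⟨s, hs⟩ := isCompact_Icc.elim_finite_subcover U hUo hcov
  refine ⟨s.sup id + 1, fun t => ?_⟩
  have hper : Function.Periodic (fun s : ℝ => Complex.exp (s * Complex.I)) (2 * π) := by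
    intro s
    push_cast
    rw [add_mul, Complex.exp_add, Complex.exp_two_pi_mul_I, mul_one]
  obtain ⟨y, hy, hty⟩ := hper.exists_mem_Ico₀ h2π t
  have := hs (Set.Ico_subset_Icc_self hy)
  simp only [Set.mem_iUnion] at this
  obtain ⟨j, hjs, hj⟩ := this
  refine ⟨j, Nat.lt_succ_of_le (Finset.le_sup (f := id) hjs), ?_⟩
  rw [hty]; exact hj

lemma align_uniform {θ δ : ℝ} (hθ : Irrational (θ / π)) (hδ : 0 < δ) :
    ∃ L0 : ℕ, ∀ G H : M2, G.det = 1 → H.det = 1 → ∃ j < L0,
      nu G * nu H * (1 - δ) ≤ nu (G * rot (j * θ) * H) := by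
  obtain ⟨L0, hL⟩ := uniform_dense hθ hδ
  refine ⟨L0, fun G H hG hH => ?_⟩
  obtain ⟨t, ht⟩ := nu_align hG hH
  obtain ⟨j, hj, hjt⟩ := hL t
  refine ⟨j, hj, ?_⟩
  have h1 := nu_le_add (G * rot t * H) (G * rot (j * θ) * H)
  have h2 : G * rot t * H - G * rot (j * θ) * H = G * (rot t - rot (j * θ)) * H := by
    rw [Matrix.mul_sub, Matrix.sub_mul]
  have h3 : nu (G * (rot t - rot (j * θ)) * H) ≤ nu G * δ * nu H := by
    have a1 := nu_nonneg G
    have a2 := nu_nonneg H
    calc _ ≤ nu (G * (rot t - rot (j * θ))) * nu H := nu_mul_le _ _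
      _ ≤ nu G * nu (rot t - rot (j * θ)) * nu H := by gcongr; exact nu_mul_le _ _
      _ ≤ nu G * δ * nu H := by rw [nu_rot_sub]; gcongr
  rw [h2, ht] at h1
  linarith

/-- the largest conjugated norm over the prefixes of a word -/
noncomputable def Gf (W : List ℝ) (E : ℝ) : ℝ :=
  W.inits.toFinset.sup' ⟨[], by simp⟩ fun P => nu (T P E * Ci (Xf (T W E)) (Sf (T W E)))

lemma le_Gf {P W : List ℝ} (h : P <+: W) (E : ℝ) :
    nu (T P E * Ci (Xf (T W E)) (Sf (T W E))) ≤ Gf W E := by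
  unfold Gf
  exact Finset.le_sup' (fun P => nu (T P E * Ci (Xf (T W E)) (Sf (T W E)))) (by simpa using h)

lemma exists_Gf (W : List ℝ) (E : ℝ) :
    ∃ P, P <+: W ∧ Gf W E = nu (T P E * Ci (Xf (T W E)) (Sf (T W E))) := by
  obtain ⟨P, hP, h⟩ := Finset.exists_mem_eq_sup' (s := W.inits.toFinset) ⟨[], by simp⟩
    fun P => nu (T P E * Ci (Xf (T W E)) (Sf (T W E)))
  exact ⟨P, by simpa using hP, h⟩

lemma measurable_nu {F : ℝ → M2} (h : ∀ i j, Measurable fun E => F E i j) :
    Measurable fun E => nu (F E) := by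
  have h1 : Continuous fun v : Fin 2 → Fin 2 → ℝ => nu (Matrix.of v) := continuous_nu
  exact h1.measurable.comp (measurable_pi_lambda _ fun i => measurable_pi_lambda _ fun j => h i j)

lemma measurable_trc (W : List ℝ) : Measurable fun E => trc (T W E) :=
  ((continuous_T_entry W 0 0).add (continuous_T_entry W 1 1)).measurable

lemma measurable_Xf (W : List ℝ) : Measurable fun E => Xf (T W E) := by
  have h := fun i j => (continuous_T_entry W i j).measurable
  unfold Xf
  exact ((h 0 0).sub (h 1 1)).div ((h 1 0).const_mul 2)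

lemma measurable_Yf (W : List ℝ) : Measurable fun E => Yf (T W E) := by
  have h := fun i j => (continuous_T_entry W i j).measurable
  have h2 := measurable_trc W
  unfold Yf
  exact (((h2.pow_const 2).const_sub 4).sqrt).div ((h 1 0).abs.const_mul 2)

lemma measurable_Gf (W : List ℝ) : Measurable (Gf W) := by
  have hX := measurable_Xf W
  have hS : Measurable fun E => Sf (T W E) := (measurable_Yf W).sqrt
  have h : ∀ P : List ℝ, Measurable fun E => nu (T P E * Ci (Xf (T W E)) (Sf (T W E))) := by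
    intro P
    have h := fun i j => (continuous_T_entry P i j).measurable
    apply measurable_nu
    intro i j
    fin_cases j
    · simp only [Matrix.mul_apply, Fin.sum_univ_two, Ci]
      simp
      exact (h _ _).mul hS
    · simp only [Matrix.mul_apply, Fin.sum_univ_two, Ci]
      simp
      exact ((h _ _).mul (hX.div hS)).add ((h _ _).mul hS.inv)
  have h2 := Finset.measurable_sup' (s := W.inits.toFinset) ⟨[], by simp⟩
    (f := fun P E => nu (T P E * Ci (Xf (T W E)) (Sf (T W E)))) fun P _ => h P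
  convert h2 using 1
  funext E
  rw [Finset.sup'_apply]
  rfl

open Classical in
/-- the potential function -/
noncomputable def Psi (W : List ℝ) (κ lam E : ℝ) : ℝ :=
  if |trc (T W E)| < 2 ∧ |Xf (T W E)| ≤ κ then
    min 1 ((Yf (T W E) ^ 2 + (Yf (T W E) ^ 2)⁻¹) / 16 + lam / Gf W E ^ 4) else 1

lemma Psi_le_one (W : List ℝ) (κ lam E : ℝ) : Psi W κ lam E ≤ 1 := by
  unfold Psi; split_ifs
  · exact min_le_left _ _
  · exact le_rfl

lemma Psi_nonneg (W : List ℝ) (κ : ℝ) {lam : ℝ} (h : 0 ≤ lam) (E : ℝ) : 0 ≤ Psi W κ lam E := by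
  unfold Psi; split_ifs
  · exact le_min zero_le_one (by positivity)
  · exact zero_le_one

lemma measurable_Psi (W : List ℝ) (κ lam : ℝ) : Measurable (Psi W κ lam) := by
  unfold Psi
  have hY := (measurable_Yf W).pow_const 2
  refine Measurable.ite ?_ ?_ measurable_const
  · exact (measurableSet_lt (measurable_trc W).abs measurable_const).inter
      (measurableSet_le (measurable_Xf W).abs measurable_const)
  · exact measurable_const.min (((hY.add hY.inv).div_const 16).add
      (measurable_const.div ((measurable_Gf W).pow_const 4)))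

lemma Psi_lt_one {W : List ℝ} {κ lam E : ℝ} (h : Psi W κ lam E < 1) :
    |trc (T W E)| < 2 ∧ |Xf (T W E)| ≤ κ ∧
      Psi W κ lam E = (Yf (T W E) ^ 2 + (Yf (T W E) ^ 2)⁻¹) / 16 + lam / Gf W E ^ 4 := by
  unfold Psi at h ⊢
  split_ifs at h ⊢ with hc
  · refine ⟨hc.1, hc.2, ?_⟩
    rcases min_lt_iff.1 h with h | h
    · exact absurd h (lt_irrefl _)
    · exact min_eq_right h.le
  · exact absurd h (lt_irrefl _)

lemma Psi_le {W : List ℝ} {κ lam E : ℝ} (h1 : |trc (T W E)| < 2) (h2 : |Xf (T W E)| ≤ κ) :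
    Psi W κ lam E ≤ (Yf (T W E) ^ 2 + (Yf (T W E) ^ 2)⁻¹) / 16 + lam / Gf W E ^ 4 := by
  unfold Psi
  rw [if_pos ⟨h1, h2⟩]
  exact min_le_right _ _

/-- continuous majorant -/
noncomputable def Fb (u y H φ : ℝ) : ℝ :=
  3 * Db u φ + (y ^ 2 + (y ^ 2)⁻¹) / 16 + (y ^ 2 - (y ^ 2)⁻¹) / 16 * xb u φ + u
    + H * (1 + u / 8) - H / 2 * |xb u φ|

lemma Db_le_Fb {u y H : ℝ} (hu : 0 < u) (hH : 0 ≤ H) (φ : ℝ) : Db u φ ≤ Fb u y H φ := by
  unfold Fb
  have h1 := Db_nonneg u φ
  have h2 := abs_xb_le hu φ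
  have h3 := abs_le.1 h2
  have h4 : 0 ≤ y ^ 2 := sq_nonneg _
  have h5 : 0 ≤ (y ^ 2)⁻¹ := by positivity
  have h6 : 0 ≤ y ^ 2 * (1 + xb u φ) := mul_nonneg h4 (by linarith)
  have h7 : 0 ≤ (y ^ 2)⁻¹ * (1 - xb u φ) := mul_nonneg h5 (by linarith)
  have h8 : 0 ≤ H * (1 + u / 8 - |xb u φ| / 2) := mul_nonneg hH (by linarith)
  nlinarith

lemma continuous_Fb {u : ℝ} (hu : 0 < u) (y H : ℝ) : Continuous (Fb u y H) := by
  have h1 := continuous_Db hu
  have h2 := continuous_xb hu
  unfold Fb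
  fun_prop

lemma periodic_Fb (u y H : ℝ) : Function.Periodic (Fb u y H) π := by
  intro φ
  unfold Fb
  rw [periodic_Db u φ, periodic_xb u φ]

lemma integral_Fb {u y H A : ℝ} (hu : 0 < u) (hH : 0 ≤ H)
    (hA : A * u ≤ (∫ x in (-(π / 2))..(-(π / 2) + π), |xb u x|) / π) :
    (∫ x in (-(π / 2))..(-(π / 2) + π), Fb u y H x) / π
      ≤ 22 * u + (y ^ 2 + (y ^ 2)⁻¹) / 16 + H * (1 + u / 8 - A * u / 2) := by
  have h1 := continuous_Db hu
  have h2 := continuous_xb hu
  have hπ := pi_pos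
  have e : ∫ x in (-(π / 2))..(-(π / 2) + π), Fb u y H x
      = 3 * (∫ x in (-(π / 2))..(-(π / 2) + π), Db u x)
        + ((y ^ 2 + (y ^ 2)⁻¹) / 16 + u + H * (1 + u / 8)) * π
        + (y ^ 2 - (y ^ 2)⁻¹) / 16 * (∫ x in (-(π / 2))..(-(π / 2) + π), xb u x)
        - H / 2 * ∫ x in (-(π / 2))..(-(π / 2) + π), |xb u x| := by
    have : Fb u y H = fun x => 3 * Db u x + ((y ^ 2 + (y ^ 2)⁻¹) / 16 + u + H * (1 + u / 8))
        + (y ^ 2 - (y ^ 2)⁻¹) / 16 * xb u x - H / 2 * |xb u x| := by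
      funext x; unfold Fb; ring
    rw [this, intervalIntegral.integral_sub, intervalIntegral.integral_add,
      intervalIntegral.integral_add, intervalIntegral.integral_const_mul,
      intervalIntegral.integral_const_mul, intervalIntegral.integral_const_mul,
      intervalIntegral.integral_const]
    · simp only [smul_eq_mul]; ring
    all_goals exact Continuous.intervalIntegrable (by fun_prop) _ _
  rw [e, integral_xb]
  have h3 := integral_Db hu
  rw [div_le_iff₀ hπ] at h3 ⊢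
  rw [le_div_iff₀ hπ] at hA
  have h4 := mul_le_mul_of_nonneg_left hA hH
  nlinarith

end Pool.Agent.H359Z.TM
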