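import Pool.Agent.H359Z.TM.Step

set_option autoImplicit false

namespace Pool.Agent.H359Z.TM

open MeasureTheory Filter Topology Real

lemma inv_one_add_le {a : ℝ} (h : 1 / 4 ≤ 1 + a) : (1 + a)⁻¹ ≤ 1 - a + 4 * a ^ 2 := by
  have h0 : 0 < 1 + a := by linarith
  rw [inv_le_iff_one_le_mul₀ h0]
  nlinarith [sq_nonneg a, mul_nonneg (sq_nonneg a) (sub_nonneg.2 h)]

lemma final_ineq {u y z a D H g : ℝ} (hu0 : 0 < u) (hu1 : u ≤ 1) (hy2 : 0 < y ^ 2)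
    (hyinv : (y ^ 2)⁻¹ ≤ 16) (hD : 0 ≤ D) (h4 : z ^ 2 ≤ D / 4) (ha : a = z - u ^ 2 / 4)
    (ha1 : 1 / 4 ≤ 1 + a) (ha3 : |z| - u ^ 2 / 4 ≤ |a|) (hH0 : 0 ≤ H) (hg : g ≤ H * (1 - |a| / 2)) :
    (y ^ 2 * (1 + a) + (y ^ 2 * (1 + a))⁻¹) / 16 + g ≤
      3 * D + (y ^ 2 + (y ^ 2)⁻¹) / 16 + (y ^ 2 - (y ^ 2)⁻¹) / 16 * z + u
        + H * (1 + u / 8) - H / 2 * |z| := by
  have hw1 : u ^ 2 ≤ u := by nlinarith
  have hw0 : 0 < u ^ 2 := by positivity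
  have h1 : y ^ 2 * (1 + a) ≤ y ^ 2 * (1 + z) := by
    gcongr; rw [ha]; linarith
  have h2 : (y ^ 2 * (1 + a))⁻¹ ≤ (y ^ 2)⁻¹ * (1 - z) + 16 * (2 * D + u) := by
    rw [mul_inv]
    have h3 := inv_one_add_le ha1
    have h5 : a ^ 2 ≤ 2 * z ^ 2 + 2 * (u ^ 2 / 4) ^ 2 := by
      rw [ha]; nlinarith [sq_nonneg (z + u ^ 2 / 4)]
    have h6 : (u ^ 2 / 4) ^ 2 ≤ u / 16 := by nlinarith
    have h7 : (1 + a)⁻¹ ≤ (1 - z) + (2 * D + u) := by
      have : 1 - a = 1 - z + u ^ 2 / 4 := by rw [ha]; ring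
      linarith
    have h8 : 0 ≤ 2 * D + u := by positivity
    calc (y ^ 2)⁻¹ * (1 + a)⁻¹ ≤ (y ^ 2)⁻¹ * ((1 - z) + (2 * D + u)) := by gcongr
      _ = (y ^ 2)⁻¹ * (1 - z) + (y ^ 2)⁻¹ * (2 * D + u) := by ring
      _ ≤ _ := by gcongr
  have h3 : H * (1 - |a| / 2) ≤ H * (1 + u / 8 - |z| / 2) :=
    mul_le_mul_of_nonneg_left (by linarith) hH0
  linarith

lemma bern4 {q : ℝ} (hq : 0 < q) (hq1 : q ≤ 1) : 1 ≤ (1 - q / 16) ^ 4 * (1 + q / 2) := by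
  have h1 : 1 + (4 : ℕ) * (-(q / 16)) ≤ (1 + -(q / 16)) ^ 4 := one_add_mul_le_pow (by linarith) 4
  have h2 : 1 - q / 4 ≤ (1 - q / 16) ^ 4 := by
    have : (1 + -(q / 16)) = 1 - q / 16 := by ring
    rw [this] at h1; push_cast at h1; linarith
  calc 1 ≤ (1 - q / 4) * (1 + q / 2) := by nlinarith
    _ ≤ _ := by gcongr

lemma quarter_le {y : ℝ} (hy : 0 < y) (h : (y ^ 2)⁻¹ ≤ 16) : 1 / 4 ≤ y := by
  rw [inv_le_comm₀ (by positivity) (by norm_num)] at h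
  nlinarith

lemma le_four {y : ℝ} (h : y ^ 2 ≤ 16) : y ≤ 4 := by nlinarith

lemma sq_le_self' {u : ℝ} (hu0 : 0 < u) (hu1 : u ≤ 1) : u ^ 2 ≤ u := by nlinarith

lemma sin_ne_of {u t : ℝ} (hu0 : 0 < u) (h : 4 * u ^ 2 ≤ t ^ 2) : t ≠ 0 := by
  intro h0; rw [h0] at h; nlinarith [sq_pos_of_pos hu0]

/-- the next word -/
def nextW (W0 : List ℝ) (b β : ℝ) (L : ℕ) : List ℝ := rep (W0 ++ [b]) L ++ (W0 ++ [b + β])

lemma T_nextW (W0 : List ℝ) (b β : ℝ) (L : ℕ) (E : ℝ) :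
    T (nextW W0 b β L) E = Nb β * T (W0 ++ [b]) E ^ (L + 1) := by
  rw [nextW, T_append, T_rep, T_snoc, A1_shift, pow_succ', T_snoc]
  simp only [Matrix.mul_assoc]

lemma step_point {W0 : List ℝ} {b β κ lam q E θ : ℝ} (hβ : 0 < β) (hβ1 : 4 * β ≤ 1)
    (hlam : 0 ≤ lam) (hq : 0 < q) (hq1 : q ≤ 1)
    (ht : |trc (T (W0 ++ [b]) E)| < 2) (hx : |Xf (T (W0 ++ [b]) E)| ≤ κ)
    (hV : (Yf (T (W0 ++ [b]) E) ^ 2 + (Yf (T (W0 ++ [b]) E) ^ 2)⁻¹) / 16 < 1)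
    (hθ : T (W0 ++ [b]) E = Em (Xf (T (W0 ++ [b]) E)) (Yf (T (W0 ++ [b]) E)) θ)
    (hirr : Irrational (θ / π)) :
    ∃ L0 : ℕ, ∀ L, L0 ≤ L → Psi (nextW W0 b β L) (κ + β / 2) lam E ≤
      Fb (β / Yf (T (W0 ++ [b]) E)) (Yf (T (W0 ++ [b]) E))
        (lam * (1 + q / 2) / Gf (W0 ++ [b]) E ^ 4) (θ + L * θ) := by
  set W := W0 ++ [b] with hW
  set M := T W E with hM
  have hdet : M.det = 1 := det_T _ _
  set x := Xf M with hxdef
  set y := Yf M with hydef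
  set s := Sf M with hsdef
  have hy : 0 < y := Yf_pos hdet ht
  have hs : 0 < s := Sf_pos hdet ht
  have hsy : s ^ 2 = y := Sf_sq hdet ht
  have hy2 : 0 < y ^ 2 := by positivity
  have hyinv : (y ^ 2)⁻¹ ≤ 16 := by linarith
  have hy4 : 1 / 4 ≤ y := quarter_le hy hyinv
  set u := β / y with hu
  have hu0 : 0 < u := by positivity
  have hu1 : u ≤ 1 := by rw [hu, div_le_one hy]; linarith
  obtain ⟨P, hP, hGP⟩ := exists_Gf W E
  rw [← hM, ← hxdef, ← hsdef] at hGP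
  have hdetG : (T P E * Ci x s).det = 1 := by rw [Matrix.det_mul, det_T, det_Ci _ hs.ne', one_mul]
  have hG1 : 1 ≤ Gf W E := by rw [hGP]; exact one_le_nu hdetG
  set G := Gf W E with hG
  set H := lam * (1 + q / 2) / G ^ 4 with hH
  have hH0 : 0 ≤ H := by positivity
  obtain ⟨L0, hL0⟩ := align_uniform (δ := q / 16) hirr (by positivity)
  refine ⟨L0, fun L hL => ?_⟩
  set φ := θ + L * θ with hφ
  have hT' : T (nextW W0 b β L) E = Nb β * Em x y φ := by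
    rw [T_nextW, ← hW, ← hM, hθ, ← hsy, Em_pow _ _ hs.ne']
    congr 2
    rw [hφ]; push_cast; ring
  rcases le_total (sin φ ^ 2) (4 * u ^ 2) with hdead | halive
  · exact (Psi_le_one _ _ _ _).trans ((one_le_Db hu0 hdead).trans (Db_le_Fb hu0 hH0 φ))
  have hsin : sin φ ≠ 0 := sin_ne_of hu0 halive
  have hxb := xb_eq hu0 halive
  have hxb2 := abs_xb_le hu0 φ
  have hxb3 := abs_le.1 hxb2
  set z := xb u φ with hz
  set a := z - u ^ 2 / 4 with ha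
  have hw1 : u ^ 2 ≤ u := sq_le_self' hu0 hu1
  have hw0 : 0 < u ^ 2 := by positivity
  have ha1 : 1 / 4 ≤ 1 + a := by rw [ha]; linarith
  have ha2 : |a| ≤ 1 := by rw [abs_le, ha]; constructor <;> linarith
  have ha3 : |z| - u ^ 2 / 4 ≤ |a| := by
    have := abs_sub_abs_le_abs_sub z (u ^ 2 / 4)
    rw [abs_of_pos (by positivity : 0 < u ^ 2 / 4)] at this
    exact this
  have hfacts := step_facts (x := x) (φ := φ) (β := β) hy hsin (by rw [← hu, ← hxb]; linarith)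
  rw [← hu, ← hxb, ← ha, ← hT'] at hfacts
  obtain ⟨ht', hx', hy'⟩ := hfacts
  set W' := nextW W0 b β L with hW'
  have hdet' : (T W' E).det = 1 := det_T _ _
  set s' := Sf (T W' E) with hs'def
  have hs' : 0 < s' := Sf_pos hdet' ht'
  have hsy' : s' ^ 2 = Yf (T W' E) := Sf_sq hdet' ht'
  have hs4 : s' ^ 4 = s ^ 4 * (1 + a) := by
    calc s' ^ 4 = (s' ^ 2) ^ 2 := by ring
      _ = y ^ 2 * (1 + a) := by rw [hsy', hy']
      _ = s ^ 4 * (1 + a) := by rw [← hsy]; ring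
  have hgain := gain_le (x := x) (x' := Xf (T W' E)) hs hs' hs4 ha2
  set Hm := Cm x s * Ci (Xf (T W' E)) s' with hHm
  have hdetH : Hm.det = 1 := by rw [hHm, Matrix.det_mul, det_Cm _ hs.ne', det_Ci _ hs'.ne', one_mul]
  obtain ⟨j, hj, hjal⟩ := hL0 _ _ hdetG hdetH
  have hpre : rep W j ++ P <+: W' :=
    (rep_prefix' hP (lt_of_lt_of_le hj hL)).trans (List.prefix_append _ _)
  have hG' := le_Gf hpre E
  have hmat : T (rep W j ++ P) E * Ci (Xf (T W' E)) (Sf (T W' E))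
      = T P E * Ci x s * rot (j * θ) * Hm := by
    rw [T_append, T_rep, ← hM, hθ, ← hsy, Em_pow _ _ hs.ne', Em_eq _ _ hs.ne', hHm]
    simp only [Matrix.mul_assoc]
    rfl
  rw [hmat] at hG'
  rw [← hGP] at hjal
  set G' := Gf W' E with hG'def
  have hν := one_le_nu hdetH
  set ν := nu Hm
  have hδ : 0 < 1 - q / 16 := by linarith
  have hGG : G * ν * (1 - q / 16) ≤ G' := hjal.trans hG'
  have hG'0 : 0 < G' := lt_of_lt_of_le (by positivity) hGG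
  have hb4 := bern4 hq hq1
  have ha4 : 0 ≤ 1 - |a| / 2 := by linarith
  have hgain2 : lam / G' ^ 4 ≤ H * (1 - |a| / 2) := by
    rw [hH, div_mul_eq_mul_div, div_le_div_iff₀ (by positivity) (by positivity)]
    have h1 : (G * ν * (1 - q / 16)) ^ 4 ≤ G' ^ 4 := pow_le_pow_left₀ (by positivity) hGG 4
    calc lam * G ^ 4 = lam * G ^ 4 * 1 * 1 := by ring
      _ ≤ lam * G ^ 4 * (ν ^ 4 * (1 - |a| / 2)) * ((1 - q / 16) ^ 4 * (1 + q / 2)) := by gcongr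
      _ = lam * (1 + q / 2) * (1 - |a| / 2) * (G * ν * (1 - q / 16)) ^ 4 := by ring
      _ ≤ lam * (1 + q / 2) * (1 - |a| / 2) * G' ^ 4 := by gcongr
  have hx'' : |Xf (T W' E)| ≤ κ + β / 2 := by
    rw [hx']
    have := abs_sub x (β / 2)
    rw [abs_of_pos (by positivity : 0 < β / 2)] at this
    linarith
  refine (Psi_le ht' hx'').trans ?_
  rw [hy']
  unfold Fb
  rw [← hz]
  exact final_ineq hu0 hu1 hy2 hyinv (Db_nonneg u φ) (xb_sq_le hu0 φ) ha ha1 ha3 hH0 hgain2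

end Pool.Agent.H359Z.TM
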