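import Pool.Agent.H359Z.TM.Ell

set_option autoImplicit false

namespace Pool.Agent.H359Z.TM

open Polynomial MeasureTheory

/-- one step transfer matrix -/
def A1 (b E : ℝ) : M2 := !![E - b, -1; 1, 0]

/-- transfer matrix of a word -/
def T (w : List ℝ) (E : ℝ) : M2 := (w.reverse.map fun b => A1 b E).prod

@[simp] lemma T_nil (E : ℝ) : T [] E = 1 := by simp [T]

lemma T_append (u v : List ℝ) (E : ℝ) : T (u ++ v) E = T v E * T u E := by
  simp [T, List.reverse_append, List.map_append, List.prod_append]

lemma T_single (b E : ℝ) : T [b] E = A1 b E := by simp [T]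

lemma T_snoc (u : List ℝ) (b E : ℝ) : T (u ++ [b]) E = A1 b E * T u E := by
  rw [T_append, T_single]

lemma det_A1 (b E : ℝ) : (A1 b E).det = 1 := by rw [A1, Matrix.det_fin_two_of]; ring

lemma det_T (w : List ℝ) (E : ℝ) : (T w E).det = 1 := by
  induction w using List.reverseRecOn with
  | nil => simp
  | append_singleton u b ih => rw [T_snoc, Matrix.det_mul, det_A1, ih, one_mul]

lemma A1_shift (b β E : ℝ) : A1 (b + β) E = Nb β * A1 b E := by
  ext i j
  fin_cases i <;> fin_cases j <;> simp [A1, Nb, Matrix.mul_apply, Fin.sum_univ_two]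
  ring

lemma continuous_A1 (b : ℝ) : Continuous (A1 b) := by
  unfold A1
  refine continuous_matrix fun i j => ?_
  fin_cases i <;> fin_cases j <;> simp <;> fun_prop

lemma continuous_T (w : List ℝ) : Continuous (T w) := by
  induction w using List.reverseRecOn with
  | nil =>
    have : T [] = fun _ => (1 : M2) := funext T_nil
    rw [this]; exact continuous_const
  | append_singleton u b ih =>
    have : T (u ++ [b]) = fun E => A1 b E * T u E := funext (T_snoc u b)
    rw [this]
    exact (continuous_A1 b).matrix_mul ih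

lemma continuous_T_entry (w : List ℝ) (i j : Fin 2) : Continuous fun E => T w E i j :=
  (continuous_T w).matrix_elem i j

lemma T_snoc_00 (u : List ℝ) (b E : ℝ) :
    T (u ++ [b]) E 0 0 = (E - b) * T u E 0 0 - T u E 1 0 := by
  rw [T_snoc]; simp [A1, Matrix.mul_apply, Fin.sum_univ_two]; ring

lemma T_snoc_10 (u : List ℝ) (b E : ℝ) : T (u ++ [b]) E 1 0 = T u E 0 0 := by
  rw [T_snoc]; simp [A1, Matrix.mul_apply, Fin.sum_univ_two]

lemma T_snoc_01 (u : List ℝ) (b E : ℝ) :
    T (u ++ [b]) E 0 1 = (E - b) * T u E 0 1 - T u E 1 1 := by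
  rw [T_snoc]; simp [A1, Matrix.mul_apply, Fin.sum_univ_two]; ring

lemma T_snoc_11 (u : List ℝ) (b E : ℝ) : T (u ++ [b]) E 1 1 = T u E 0 1 := by
  rw [T_snoc]; simp [A1, Matrix.mul_apply, Fin.sum_univ_two]

/-- the entries are polynomials with controlled degrees -/
lemma exists_poly (w : List ℝ) : ∃ p q r s : ℝ[X],
    (∀ E, T w E 0 0 = p.eval E ∧ T w E 1 0 = q.eval E ∧ T w E 0 1 = r.eval E ∧ T w E 1 1 = s.eval E) ∧
    p.Monic ∧ p.degree = w.length ∧ q.degree < w.length ∧ r.degree < w.length ∧
    s.degree ≤ w.length ∧ (w ≠ [] → s.degree < w.length) := by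
  induction w using List.reverseRecOn with
  | nil =>
    refine ⟨1, 0, 0, 1, fun E => by simp, monic_one, by simp, by simp, by simp, by simp, by simp⟩
  | append_singleton u b ih =>
    obtain ⟨p, q, r, s, he, hm, hp, hq, hr, hs, -⟩ := ih
    have hXp : ((X - C b) * p).degree = (((u ++ [b]).length : ℕ) : WithBot ℕ) := by
      rw [degree_mul, degree_X_sub_C, hp]; simp [add_comm]
    have hlt : ((u.length : ℕ) : WithBot ℕ) < (((u ++ [b]).length : ℕ) : WithBot ℕ) := by
      simp only [List.length_append, List.length_singleton]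
      exact_mod_cast Nat.lt_succ_self _
    have hqlt : q.degree < ((X - C b) * p).degree := by rw [hXp]; exact hq.trans hlt
    refine ⟨(X - C b) * p - q, p, (X - C b) * r - s, r, fun E => ?_, ?_, ?_, ?_, ?_, ?_, ?_⟩
    · obtain ⟨h1, h2, h3, h4⟩ := he E
      rw [T_snoc_00, T_snoc_10, T_snoc_01, T_snoc_11, h1, h2, h3, h4]
      simp
    · exact Monic.sub_of_left ((monic_X_sub_C b).mul hm) hqlt
    · rw [degree_sub_eq_left_of_degree_lt hqlt, hXp]
    · rw [hp]; exact hlt
    · refine lt_of_le_of_lt (degree_sub_le _ _) (max_lt ?_ (hs.trans_lt hlt))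
      rw [degree_mul, degree_X_sub_C]
      by_cases hr0 : r = 0
      · rw [hr0]; simp
      · rw [degree_eq_natDegree hr0] at hr ⊢
        simp only [List.length_append, List.length_singleton]
        have : r.natDegree < u.length := by exact_mod_cast hr
        have h2 : 1 + r.natDegree < u.length + 1 := by omega
        exact_mod_cast h2
    · exact (hr.trans hlt).le
    · intro _; exact hr.trans hlt

lemma finite_trace_level {w : List ℝ} (hw : w ≠ []) (c : ℝ) : {E | trc (T w E) = c}.Finite := by
  obtain ⟨p, q, r, s, he, hm, hp, -, -, -, hs⟩ := exists_poly w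
  have hs' := hs hw
  have hlen : (0 : WithBot ℕ) < ((w.length : ℕ) : WithBot ℕ) := by
    have : 0 < w.length := List.length_pos_iff.2 hw
    exact_mod_cast this
  have h1 : (s - C c).degree < p.degree := by
    rw [hp]
    exact lt_of_le_of_lt (degree_sub_le _ _) (max_lt hs' (degree_C_le.trans_lt hlen))
  have h2 : (p + (s - C c)) ≠ 0 := (hm.add_of_left h1).ne_zero
  refine (finite_setOfPred_isRoot h2).subset fun E hE => ?_
  obtain ⟨h3, -, -, h4⟩ := he E
  simp only [Set.mem_ofPred_eq, trc] at hE
  simp only [Set.mem_ofPred_eq, IsRoot.def, eval_add, eval_sub, eval_C]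
  rw [← h3, ← h4]; linarith

lemma ae_irrational {w : List ℝ} (hw : w ≠ []) :
    ∀ᵐ E : ℝ, ∀ θ : ℝ, 2 * Real.cos θ = trc (T w E) → Irrational (θ / Real.pi) := by
  have h : (⋃ q : ℚ, {E | trc (T w E) = 2 * Real.cos (q * Real.pi)}).Countable :=
    Set.countable_iUnion fun q => (finite_trace_level hw _).countable
  have h0 := h.measure_zero (volume : Measure ℝ)
  rw [ae_iff]
  refine measure_mono_null (fun E hE => ?_) h0
  simp only [Set.mem_ofPred_eq] at hE
  push Not at hE
  obtain ⟨θ, h1, h2⟩ := hE
  unfold Irrational at h2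
  push Not at h2
  obtain ⟨q, hq⟩ := h2
  refine Set.mem_iUnion.2 ⟨q, ?_⟩
  simp only [Set.mem_ofPred_eq]
  rw [← h1, hq]
  congr 2
  field_simp

/-- repetition of a word -/
def rep (W : List ℝ) : ℕ → List ℝ
  | 0 => []
  | n + 1 => rep W n ++ W

lemma T_rep (W : List ℝ) (n : ℕ) (E : ℝ) : T (rep W n) E = T W E ^ n := by
  induction n with
  | zero => simp [rep]
  | succ n ih => rw [rep, T_append, ih, pow_succ']

lemma rep_prefix (W : List ℝ) {j L : ℕ} (h : j ≤ L) : rep W j <+: rep W L := by
  induction L, h using Nat.le_induction with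
  | base => exact List.prefix_rfl
  | succ n _ ih => exact ih.trans (List.prefix_append _ _)

lemma rep_prefix' {W P : List ℝ} (hP : P <+: W) {j L : ℕ} (h : j < L) : rep W j ++ P <+: rep W L := by
  have h1 : rep W j ++ P <+: rep W (j + 1) := by
    rw [rep]; exact (List.prefix_append_right_inj _).2 hP
  exact h1.trans (rep_prefix W h)

lemma mem_rep {W : List ℝ} {n : ℕ} {b : ℝ} (h : b ∈ rep W n) : b ∈ W := by
  induction n with
  | zero => simp [rep] at h
  | succ n ih =>
    rw [rep, List.mem_append] at h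
    exact h.elim ih id

lemma nu_A1_le {b E : ℝ} (hb : |b| ≤ 1) (hE : |E| ≤ 1) : nu (A1 b E) ≤ 4 := by
  have h := nu_le_sum (A1 b E)
  simp [A1] at h
  have := abs_sub E b
  unfold A1
  linarith

end Pool.Agent.H359Z.TM
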